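import Pool.Agent.H93.GQ.Def

/-!
# H93 GQ REX: functions on groups of exponent dividing `p` are combinations of characters of cyclic subgroups (`p` arbitrary)

As H57/GP/Rex. `xsq p x y`: for `y = x ^ k` the element `(p / ord x) k` of `ZMod p`.
-/

set_option autoImplicit false

open scoped NumberField Pointwise Classical
open IsDedekindDomain H63.MA NumberField H36.QA H57.LI H57.LC H67.SX H38.ML H57.SL

noncomputable section

namespace H57.GP.Q

variable {G : Type} [Group G]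

theorem rex_ix {p : ℕ} {ι : Type} [Fintype ι] {N : ℕ} (h : Fintype.card ι ≤ N) (c : ι → ℂ)
    (H : ι → Subgroup G) (ψ : ι → G → ZMod p) (hL : ∀ j, Lc (H j) (ψ j)) (hc : ∀ j, ‖c j‖ ≤ N)
    {f : G → ℂ} (hf : ∀ y, f y = ∑ i, c i * th (H i) (ψ i) y) : Raw p N f := by
  obtain ⟨c', H', ψ', h1, h2, -, h4⟩ := tel_pad h c H ψ hL hc
  exact ⟨c', H', ψ', h1, h2, fun y => (hf y).trans (h4 y)⟩

/-- the logarithm to the base `x` -/
def xsq (p : ℕ) (x y : G) : ZMod p :=
  if h : ∃ k : ℕ, x ^ k = y then ((p / orderOf x * h.choose : ℕ) : ZMod p) else 0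

theorem xsq_iff {p : ℕ} (hp : 0 < p) {x : G} (hxp : x ^ p = 1) (k l : ℕ) :
    ((p / orderOf x * k : ℕ) : ZMod p) = ((p / orderOf x * l : ℕ) : ZMod p) ↔ x ^ k = x ^ l := by
  have h1 : orderOf x ∣ p := orderOf_dvd_of_pow_eq_one hxp
  obtain ⟨s, hs⟩ := h1
  have h0 : 0 < orderOf x := by
    rcases Nat.eq_zero_or_pos (orderOf x) with h | h
    · rw [h, zero_mul] at hs
      omega
    · exact h
  have hs0 : 0 < s := by
    rcases Nat.eq_zero_or_pos s with h | h
    · rw [h, mul_zero] at hs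
      omega
    · exact h
  have h2 : p / orderOf x = s := by
    rw [hs, Nat.mul_div_cancel_left _ h0]
  rw [h2, pow_eq_pow_iff_modEq, ZMod.natCast_eq_natCast_iff, hs, mul_comm (orderOf x) s]
  constructor
  · intro h
    exact Nat.ModEq.mul_left_cancel' hs0.ne' h
  · intro h
    exact Nat.ModEq.mul_left' s h

theorem xsq_pow {p : ℕ} (hp : 0 < p) {x : G} (hxp : x ^ p = 1) (k : ℕ) :
    xsq p x (x ^ k) = ((p / orderOf x * k : ℕ) : ZMod p) := by
  have h : ∃ l : ℕ, x ^ l = x ^ k := ⟨k, rfl⟩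
  unfold xsq
  rw [dif_pos h, xsq_iff hp hxp]
  exact h.choose_spec

theorem rexq_zp {p : ℕ} (hp : 0 < p) {x : G} (hxp : x ^ p = 1) {y : G}
    (hy : y ∈ Subgroup.zpowers x) : ∃ k : ℕ, y = x ^ k := by
  have h : IsOfFinOrder x := isOfFinOrder_iff_pow_eq_one.2 ⟨p, hp, hxp⟩
  obtain ⟨k, hk⟩ := (h.mem_powers_iff_mem_zpowers).2 hy
  exact ⟨k, hk.symm⟩

theorem rexq_lc {p : ℕ} (hp : 0 < p) {x : G} (hxp : x ^ p = 1) (j : ZMod p) :
    Lc (Subgroup.zpowers x) (fun y => j * xsq p x y) := by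
  intro a ha b hb
  obtain ⟨k, rfl⟩ := rexq_zp hp hxp ha
  obtain ⟨l, rfl⟩ := rexq_zp hp hxp hb
  show j * xsq p x (x ^ k * x ^ l) = j * xsq p x (x ^ k) + j * xsq p x (x ^ l)
  rw [← pow_add, xsq_pow hp hxp, xsq_pow hp hxp, xsq_pow hp hxp]
  push_cast
  ring

theorem ep_sumq {p : ℕ} [NeZero p] (b : ZMod p) :
    ∑ a : ZMod p, ep p (a * b) = if b = 0 then (p : ℂ) else 0 := by
  have h := AddChar.sum_mulShift b (ZMod.isPrimitive_stdAddChar p)
  simp only [rayc_std]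
  rw [h, ZMod.card]
  split_ifs <;> simp

theorem rexq_del {p : ℕ} [NeZero p] {x : G} (hxp : x ^ p = 1) (y : G) :
    ∑ j : ZMod p, ((p : ℂ)⁻¹ * ep p (-(j * ((p / orderOf x : ℕ) : ZMod p)))) *
      th (Subgroup.zpowers x) (fun y => j * xsq p x y) y = if x = y then 1 else 0 := by
  have hp : 0 < p := Nat.pos_of_ne_zero (NeZero.ne p)
  by_cases hy : y ∈ Subgroup.zpowers x
  · obtain ⟨k, rfl⟩ := rexq_zp hp hxp hy
    have h1 : ∀ j : ZMod p, ((p : ℂ)⁻¹ * ep p (-(j * ((p / orderOf x : ℕ) : ZMod p)))) *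
        th (Subgroup.zpowers x) (fun y => j * xsq p x y) (x ^ k) =
        (p : ℂ)⁻¹ * ep p (j * (((p / orderOf x * k : ℕ) : ZMod p) - ((p / orderOf x * 1 : ℕ) : ZMod p))) := by
      intro j
      unfold th
      rw [if_pos hy, mul_assoc, rayc_std, rayc_std, rayc_std, ← AddChar.map_add_eq_mul]
      congr 2
      beta_reduce
      rw [xsq_pow hp hxp]
      push_cast
      ring
    rw [Finset.sum_congr rfl fun j _ => h1 j, ← Finset.mul_sum, ep_sumq]
    have h2 : (((p / orderOf x * k : ℕ) : ZMod p) - ((p / orderOf x * 1 : ℕ) : ZMod p) = 0) ↔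
        x = x ^ k := by
      rw [sub_eq_zero, xsq_iff hp hxp, pow_one]
      exact ⟨fun h => h.symm, fun h => h.symm⟩
    by_cases h4 : x = x ^ k
    · rw [if_pos (h2.2 h4), if_pos h4]
      exact inv_mul_cancel₀ (Nat.cast_ne_zero.2 hp.ne')
    · rw [if_neg (fun h => h4 (h2.1 h)), if_neg h4, mul_zero]
  · have h1 : x ≠ y := by
      rintro rfl
      exact hy (Subgroup.mem_zpowers x)
    rw [if_neg h1]
    refine Finset.sum_eq_zero fun j _ => ?_
    unfold th
    rw [if_neg hy, mul_zero]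

theorem raw_exp [Fintype G] {p : ℕ} (hp : 0 < p) (hG : ∀ y : G, y ^ p = 1) {b c : ℕ}
    (hb : Fintype.card G ≤ b) (hc : 1 ≤ c) {f : G → ℂ} (hf : ∀ y, ‖f y‖ ≤ c) :
    Raw p (c * b * p) f := by
  have : NeZero p := ⟨hp.ne'⟩
  have hb1 : 1 ≤ b := (Fintype.card_pos).trans_le hb
  have hcN : (c : ℝ) ≤ ((c * b * p : ℕ) : ℝ) := by
    exact_mod_cast (by
      calc c = c * 1 * 1 := by ring
        _ ≤ c * b * p := Nat.mul_le_mul (Nat.mul_le_mul le_rfl hb1) hp)
  refine rex_ix (ι := G × ZMod p) ?_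
    (fun i => f i.1 * ((p : ℂ)⁻¹ * ep p (-(i.2 * ((p / orderOf i.1 : ℕ) : ZMod p)))))
    (fun i => Subgroup.zpowers i.1) (fun i => fun y => i.2 * xsq p i.1 y) ?_ ?_ ?_
  · rw [Fintype.card_prod, ZMod.card]
    refine Nat.mul_le_mul ?_ le_rfl
    calc Fintype.card G ≤ b := hb
      _ = 1 * b := (one_mul b).symm
      _ ≤ c * b := Nat.mul_le_mul hc le_rfl
  · rintro ⟨x, j⟩
    exact rexq_lc hp (hG x) j
  · rintro ⟨x, j⟩
    refine le_trans ?_ hcN
    simp only
    rw [norm_mul, norm_mul, ep_norm, mul_one, norm_inv, Complex.norm_natCast]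
    have h1 : ((p : ℝ))⁻¹ ≤ 1 := inv_le_one_of_one_le₀ (by exact_mod_cast hp)
    calc ‖f x‖ * (p : ℝ)⁻¹ ≤ c * 1 :=
          mul_le_mul (hf x) h1 (by positivity) (Nat.cast_nonneg _)
      _ = c := mul_one _
  · intro y
    rw [Fintype.sum_prod_type]
    have h1 : ∀ x : G, ∑ j : ZMod p,
        (f x * ((p : ℂ)⁻¹ * ep p (-(j * ((p / orderOf x : ℕ) : ZMod p))))) *
          th (Subgroup.zpowers x) (fun y => j * xsq p x y) y = if x = y then f x else 0 := by
      intro x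
      have h2 := rexq_del (hG x) y
      have h3 : ∀ j : ZMod p, f x * ((p : ℂ)⁻¹ * ep p (-(j * ((p / orderOf x : ℕ) : ZMod p)))) *
          th (Subgroup.zpowers x) (fun y => j * xsq p x y) y =
          f x * (((p : ℂ)⁻¹ * ep p (-(j * ((p / orderOf x : ℕ) : ZMod p)))) *
            th (Subgroup.zpowers x) (fun y => j * xsq p x y) y) :=
        fun j => mul_assoc _ _ _
      rw [Finset.sum_congr rfl fun j _ => h3 j, ← Finset.mul_sum, h2]
      by_cases h4 : x = y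
      · rw [if_pos h4, if_pos h4, mul_one]
      · rw [if_neg h4, if_neg h4, mul_zero]
    rw [Finset.sum_congr rfl fun x _ => h1 x, Finset.sum_ite_eq' Finset.univ y, if_pos (Finset.mem_univ _)]

end H57.GP.Q
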