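import Pool.Agent.H93.GQ.Gp
import Pool.Agent.H93.GQ.Rex
import Pool.Agent.H57.GP.Gpr

/-!
# H93 GQ FIN: the black box GP for groups of exponent `p ^ κ`

* `gpsq`: the statement `GpS q K S` of `gp` for `q = ℓ ^ (k + 1)`, `K` with a primitive `q`-th root of unity.
* `gprq`: `GPR D QBar (ℓ ^ κ)` (raw functions). `gpuq`: `H35.UB.GPU D QBar κ` (class functions, images of exponent dividing `ℓ ^ κ`).
-/

set_option autoImplicit false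

open scoped NumberField Pointwise Classical
open IsDedekindDomain H63.MA NumberField H36.QA H57.LI H57.LC H1.LS4 H67.SX H38.ML H57.SL H57.AN
  H38.BB H38.BG H57.PC H77.WD H77.WE

noncomputable section

namespace H57.GP.Q

theorem gpsq {ℓ p : ℕ} (hp : PQ ℓ p) (hp2 : ℓ ≠ 2) {K : IntermediateField ℚ QBar} [NumberField K]
    {z : K} (hz : IsPrimitiveRoot z p) (S : Finset (Pl K)) (hS : ∀ v : Pl K, Above ℓ v → v ∈ S) :
    GpS p K S :=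
  gp sws hp hp2 hz S fun v hv => hS v ((pq_above hp v).1 hv)

/-- the black box for raw functions of order `ℓ ^ κ` -/
theorem gprq {ℓ κ : ℕ} (hℓ : ℓ.Prime) (hℓ2 : ℓ ≠ 2) (hκ : 1 ≤ κ) {K : IntermediateField ℚ QBar}
    [NumberField K] {ζ z : K} (hζ : IsPrimitiveRoot ζ ℓ) (hz : IsPrimitiveRoot z (ℓ ^ κ))
    (D : RD0 K ℓ ζ) : GPR D QBar (ℓ ^ κ) := by
  obtain ⟨k, rfl⟩ : ∃ k, κ = k + 1 := ⟨κ - 1, by omega⟩
  exact gpr_of hℓ (dvd_pow_self ℓ (Nat.succ_ne_zero k)) hζ D (gpsq (pq_pow hℓ k) hℓ2 hz D.S0 D.above)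

/-- the black box, in the form of H35/UB, exponent `ℓ ^ κ` -/
theorem gpuq {ℓ κ : ℕ} (hℓ : ℓ.Prime) (hℓ2 : ℓ ≠ 2) (hκ : 1 ≤ κ) {K : IntermediateField ℚ QBar}
    [NumberField K] {ζ z : K} (hζ : IsPrimitiveRoot ζ ℓ) (hz : IsPrimitiveRoot z (ℓ ^ κ))
    (D : RD0 K ℓ ζ) : H35.UB.GPU D QBar κ := by
  intro b C₁ A ε hε
  have hq0 : 0 < ℓ ^ κ := pow_pos hℓ.pos _
  obtain ⟨Y₀, hY₀⟩ := gprq hℓ hℓ2 hκ hζ hz D ((b + 1) * (b + 1) * ℓ ^ κ) C₁ A ε hε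
  refine ⟨Y₀, ?_⟩
  intro Y hY L Fr E ι I n x hn hx hfib G _ _ φ f hF
  refine hY₀ Y hY L Fr ι I n x (fun i hi => (hn i hi).2) hx hfib G φ f fun i hi => ?_
  obtain ⟨h1, h2, h3, h4, h5⟩ := hF i hi
  have hcard : Fintype.card (φ i).range ≤ b + 1 := by
    rw [Fintype.card_subtype]
    exact h1.trans (Nat.le_succ b)
  refine ⟨h1.trans ?_, fun y => ⟨κ, Subtype.ext (h2 y.1 y.2)⟩,
    ⟨fun y => f i y, ?_, gpr_cls (φ i) (f i) h3⟩, h5.1,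
    fun v hv hn' => (h5.2 v hv fun hE => hn' ((hn i hi).1 hE)).2 hn'⟩
  · calc b ≤ (b + 1) * 1 * 1 := by omega
      _ ≤ (b + 1) * (b + 1) * ℓ ^ κ := Nat.mul_le_mul (Nat.mul_le_mul le_rfl (by omega)) hq0
  · refine raw_exp hq0 (fun y => Subtype.ext (h2 y.1 y.2)) hcard (Nat.succ_le_succ (Nat.zero_le b))
      fun y => (h4 y.1 y.2).trans ?_
    exact_mod_cast Nat.le_succ b

end H57.GP.Q
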