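import Pool.Agent.H93.GQ.Def
import Pool.Agent.H57.GP.Chv
import Pool.Agent.H57.RQ.Rec
import Pool.Agent.H57.RQ.Kmk
import Pool.Agent.H57.RQ.Rck

/-!
# H93 GQ CHV: the ray class character of a character of prime power order `p = ℓ ^ (k + 1)`

`chv_el`: from a nontrivial character of order `p` a nontrivial character of order `ℓ` (a multiple).
`chv`: Kummer theory of order `p` (`kmk`, `kmk_ord`, `kmk_fr`), the reciprocity law of order `p` (`rk`, `rck`). `Non2`: the Kummer character of order `ℓ` (`kmp`, `knn`).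
-/

set_option autoImplicit false

open scoped NumberField Pointwise Classical
open IsDedekindDomain H63.MA NumberField H36.QA H57.LI H57.LC H67.SX H38.ML H57.SL H57.RQ

noncomputable section

namespace H57.GP.Q

section chv

variable {K : IntermediateField ℚ QBar} [NumberField K]

omit [NumberField K] in
private theorem chv_cl (E : IntermediateField K QBar) : IsAlgClosure E QBar where
  isAlgClosed := inferInstance
  isAlgebraic := Algebra.IsAlgebraic.tower_top (K := K) E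

private theorem chv_mem {K : IntermediateField ℚ QBar} (E : IntermediateField K QBar)
    (σ : Gal(QBar/E)) : (σ.restrictScalars K : Gal(QBar/K)) ∈ E.fixingSubgroup := by
  rw [IntermediateField.mem_fixingSubgroup_iff]
  intro x hx
  exact σ.commutes ⟨x, hx⟩

private theorem chv_ft {p : ℕ} {K : IntermediateField ℚ QBar} [NumberField K]
    (E : IntermediateField K QBar) [NumberField E] (θ : Gal(QBar/K) → ZMod p)
    (ft : ∃ M : IntermediateField K QBar, FiniteDimensional K M ∧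
      ∀ σ ∈ M.fixingSubgroup, σ ∈ E.fixingSubgroup ∧ θ σ = 0) :
    ∃ M : IntermediateField E QBar, FiniteDimensional E M ∧
      ∀ σ ∈ M.fixingSubgroup, θ (σ.restrictScalars K) = 0 := by
  obtain ⟨M, hM, hM'⟩ := ft
  have hE : FiniteDimensional K E := Module.Finite.of_restrictScalars_finite ℚ K E
  have hs : FiniteDimensional K (E ⊔ M : IntermediateField K QBar) :=
    IntermediateField.finiteDimensional_sup E M
  have hle : E ≤ E ⊔ M := le_sup_left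
  have hs' : FiniteDimensional K (IntermediateField.extendScalars hle) := hs
  refine ⟨IntermediateField.extendScalars hle, ?_, ?_⟩
  · exact Module.Finite.of_restrictScalars_finite K E (IntermediateField.extendScalars hle)
  · intro σ hσ
    have h1 : (σ.restrictScalars K : Gal(QBar/K)) ∈ M.fixingSubgroup := by
      rw [IntermediateField.mem_fixingSubgroup_iff]
      intro x hx
      exact (IntermediateField.mem_fixingSubgroup_iff _ _).1 hσ x
        ((le_sup_right : M ≤ E ⊔ M) hx)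
    exact (hM' _ h1).2

private theorem chv_nd {p : ℕ} (B : Finset (Pl K)) (l : Pl K) (h3 : ¬ Above p l) (hB : l ∉ B) :
    ¬ l.asIdeal ∣ mB p B := by
  intro hd
  rcases (HeightOneSpectrum.prime l).dvd_or_dvd hd with h1 | h1
  · have h2 : (p : 𝓞 K) ^ 3 ∈ l.asIdeal := Ideal.dvd_span_singleton.1 h1
    exact h3 (l.isPrime.mem_of_pow_mem 3 h2)
  · obtain ⟨w, hwE, h2⟩ := (HeightOneSpectrum.prime l).exists_mem_finset_dvd h1
    have h3 : w.asIdeal ≤ l.asIdeal := Ideal.le_of_dvd h2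
    have h4 : w = l := HeightOneSpectrum.ext (w.isMaximal.eq_of_le l.isPrime.ne_top h3)
    exact hB (h4 ▸ hwE)

private theorem chv_nd2 (E : IntermediateField K QBar) [NumberField E] (J : Ideal (𝓞 K)) (w : Pl E) (l : Pl K)
    (hw : Over w l) (h : w.asIdeal ∣ md J E) : l.asIdeal ∣ J := by
  have h1 : md J E ≤ w.asIdeal := Ideal.le_of_dvd h
  have h2 : J ≤ w.asIdeal.comap (algebraMap (𝓞 K) (𝓞 E)) := Ideal.map_le_iff_le_comap.1 h1
  rw [show w.asIdeal.comap (algebraMap (𝓞 K) (𝓞 E)) = l.asIdeal from hw] at h2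
  exact Ideal.dvd_iff_le.2 h2

private theorem chv_above {p : ℕ} (E : IntermediateField K QBar) [NumberField E] (w : Pl E) (l : Pl K)
    (hw : Over w l) (h : Above p w) : Above p l := by
  unfold Above at h ⊢
  rw [← (show w.asIdeal.comap (algebraMap (𝓞 K) (𝓞 E)) = l.asIdeal from hw), Ideal.mem_comap,
    map_natCast]
  exact h

private theorem chv_above' {p : ℕ} (E : IntermediateField K QBar) [NumberField E] (w : Pl E) (l : Pl K)
    (hw : Over w l) (h : Above p l) : Above p w := by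
  unfold Above at h ⊢
  rw [← (show w.asIdeal.comap (algebraMap (𝓞 K) (𝓞 E)) = l.asIdeal from hw), Ideal.mem_comap,
    map_natCast] at h
  exact h

theorem mB_ne {ℓ p : ℕ} (hp : PQ ℓ p) {K : IntermediateField ℚ QBar} [NumberField K]
    (B : Finset (Pl K)) : mB p B ≠ ⊥ := by
  unfold mB
  rw [← Ideal.zero_eq_bot]
  refine mul_ne_zero ?_ (Finset.prod_ne_zero_iff.2 fun v _ => v.ne_bot)
  rw [Ideal.zero_eq_bot, Ne, Ideal.span_singleton_eq_bot]
  exact pow_ne_zero _ (Nat.cast_ne_zero.2 hp.ne_zero)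

private theorem chv_md (E : IntermediateField K QBar) [NumberField E] (J : Ideal (𝓞 K)) (h : J ≠ ⊥) : md J E ≠ ⊥ := by
  unfold md
  rw [Ne, Ideal.map_eq_bot_iff_of_injective (FaithfulSMul.algebraMap_injective (𝓞 K) (𝓞 E))]
  exact h

private theorem chv_copr {M : Type} [Field M] [NumberField M] (w : Pl M) (J : Ideal (𝓞 M))
    (h : ¬ w.asIdeal ∣ J) : IsCoprime w.asIdeal J := by
  rw [Ideal.isCoprime_iff_sup_eq]
  by_contra hne
  have h1 : w.asIdeal = w.asIdeal ⊔ J := w.isMaximal.eq_of_le hne le_sup_left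
  exact h (Ideal.dvd_iff_le.2 (by rw [h1]; exact le_sup_right))

end chv

/-- an element killed by `ℓ` is in the image of `em` -/
private theorem chv_em {ℓ k : ℕ} (hℓ : ℓ.Prime) {u : ZMod (ℓ ^ (k + 1))}
    (hu : (ℓ : ZMod (ℓ ^ (k + 1))) * u = 0) : ∃ s, u = em ℓ k s := by
  have : NeZero (ℓ ^ (k + 1)) := ⟨pow_ne_zero _ hℓ.ne_zero⟩
  obtain ⟨m, hm⟩ : ∃ m : ℕ, u = (m : ZMod (ℓ ^ (k + 1))) := ⟨u.val, (ZMod.natCast_zmod_val u).symm⟩
  subst hm
  have h1 : ((ℓ * m : ℕ) : ZMod (ℓ ^ (k + 1))) = 0 := by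
    rw [Nat.cast_mul, hu]
  rw [ZMod.natCast_eq_zero_iff, pow_succ', Nat.mul_dvd_mul_iff_left hℓ.pos] at h1
  apply em_ker hℓ
  rw [map_natCast]
  exact (ZMod.natCast_eq_zero_iff _ _).2 h1

/-- from a nontrivial character of order `ℓ ^ (k + 1)` a nontrivial multiple of order `ℓ` -/
private theorem chv_el {ℓ k : ℕ} (hℓ : ℓ.Prime) {K : IntermediateField ℚ QBar} [NumberField K]
    (E : IntermediateField K QBar) (θ : Gal(QBar/K) → ZMod (ℓ ^ (k + 1))) (B : Finset (Pl K))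
    (h : Th (ℓ ^ (k + 1)) E θ B) (hne : ∃ σ ∈ E.fixingSubgroup, θ σ ≠ 0) :
    ∃ θ' : Gal(QBar/K) → ZMod ℓ, Th ℓ E θ' B ∧ (∃ σ ∈ E.fixingSubgroup, θ' σ ≠ 0) ∧
      ∀ σ ∈ E.fixingSubgroup, θ' σ ≠ 0 → θ σ ≠ 0 := by
  have hq := pq_pow hℓ k
  obtain ⟨q, hqe⟩ : ∃ q, q = ℓ ^ (k + 1) := ⟨_, rfl⟩
  -- the exponent
  have hex : ∃ i : ℕ, ∀ σ ∈ E.fixingSubgroup, ((ℓ ^ i : ℕ) : ZMod (ℓ ^ (k + 1))) * θ σ = 0 := by
    refine ⟨k + 1, fun σ _ => ?_⟩
    rw [ZMod.natCast_self, zero_mul]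
  obtain ⟨i, hi, hmin⟩ : ∃ i : ℕ, (∀ σ ∈ E.fixingSubgroup,
      ((ℓ ^ i : ℕ) : ZMod (ℓ ^ (k + 1))) * θ σ = 0) ∧ ∀ j < i, ¬ ∀ σ ∈ E.fixingSubgroup,
      ((ℓ ^ j : ℕ) : ZMod (ℓ ^ (k + 1))) * θ σ = 0 :=
    ⟨Nat.find hex, Nat.find_spec hex, fun j hj => Nat.find_min hex hj⟩
  obtain ⟨σ₀, hσ₀, hθ₀⟩ := hne
  obtain ⟨j, rfl⟩ : ∃ j, i = j + 1 := by
    rcases i with _ | j
    · exfalso
      have := hi σ₀ hσ₀
      rw [pow_zero, Nat.cast_one, one_mul] at this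
      exact hθ₀ this
    · exact ⟨j, rfl⟩
  have hk1 : ∀ σ ∈ E.fixingSubgroup, ∃ s : ZMod ℓ,
      ((ℓ ^ j : ℕ) : ZMod (ℓ ^ (k + 1))) * θ σ = em ℓ k s := by
    intro σ hσ
    apply chv_em hℓ
    rw [← mul_assoc, ← Nat.cast_mul, ← pow_succ']
    exact hi σ hσ
  obtain ⟨θ', hθ'⟩ : ∃ θ' : Gal(QBar/K) → ZMod ℓ, ∀ σ ∈ E.fixingSubgroup,
      ((ℓ ^ j : ℕ) : ZMod (ℓ ^ (k + 1))) * θ σ = em ℓ k (θ' σ) := by
    refine ⟨fun σ => if hσ : σ ∈ E.fixingSubgroup then (hk1 σ hσ).choose else 0, fun σ hσ => ?_⟩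
    beta_reduce
    rw [dif_pos hσ]
    exact (hk1 σ hσ).choose_spec
  have hz : ∀ σ ∈ E.fixingSubgroup, θ σ = 0 → θ' σ = 0 := by
    intro σ hσ h0
    have h1 := hθ' σ hσ
    rw [h0, mul_zero] at h1
    exact em_inj hℓ h1.symm
  refine ⟨θ', ⟨?_, ?_, ?_⟩, ?_, ?_⟩
  · intro σ hσ τ hτ
    have h1 := hθ' (σ * τ) (mul_mem hσ hτ)
    rw [h.mul σ hσ τ hτ, mul_add, hθ' σ hσ, hθ' τ hτ, ← em_add hℓ] at h1
    have hneg : ∀ s : ZMod ℓ, em ℓ k (-s) = -em ℓ k s := by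
      intro s
      have h2 := em_add (k := k) hℓ s (-s)
      rw [add_neg_cancel, em_zero hℓ] at h2
      exact (neg_eq_of_add_eq_zero_right h2.symm).symm
    have h3 : em ℓ k ((θ' σ + θ' τ) - θ' (σ * τ)) = 0 := by
      rw [sub_eq_add_neg, em_add hℓ, hneg, h1, add_neg_cancel]
    exact (sub_eq_zero.1 (em_inj hℓ h3)).symm
  · obtain ⟨M, hM, hM'⟩ := h.ft
    exact ⟨M, hM, fun σ hσ => ⟨(hM' σ hσ).1, hz σ (hM' σ hσ).1 (hM' σ hσ).2⟩⟩
  · intro l hl hB P hP hPl τ hτ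
    have h1 := h.unr l (fun h2 => hl ((pq_above hq l).1 h2)) hB P hP hPl τ hτ
    exact ⟨h1.1, hz τ h1.1 h1.2⟩
  · have h1 := hmin j (Nat.lt_succ_self j)
    push Not at h1
    obtain ⟨σ, hσ, h2⟩ := h1
    refine ⟨σ, hσ, fun h3 => h2 ?_⟩
    rw [hθ' σ hσ, h3, em_zero hℓ]
  · intro σ hσ h1 h2
    exact h1 (hz σ hσ h2)

theorem chv {ℓ p : ℕ} (hp : PQ ℓ p) (hp2 : ℓ ≠ 2) {K : IntermediateField ℚ QBar} [NumberField K] {ζ : K}
    (hζ : IsPrimitiveRoot ζ p) (E : IntermediateField K QBar) [NumberField E]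
    (θ : Gal(QBar/K) → ZMod p) (B : Finset (Pl K)) (h : Th p E θ B) :
    ∃ χ : RC E (md (mB p B) E), Vl p E θ B χ ∧
      ((∃ σ ∈ E.fixingSubgroup, θ σ ≠ 0) → Non2 χ) := by
  have hp' := hp
  obtain ⟨hℓ, k, rfl⟩ := hp
  have hq0 : 0 < ℓ ^ (k + 1) := hp'.pos
  have hcl : IsAlgClosure E QBar := chv_cl E
  have hζE : IsPrimitiveRoot (algebraMap K E ζ) (ℓ ^ (k + 1)) :=
    hζ.map_of_injective (algebraMap K E).injective
  have hone : MOne ℓ E := mone_odd hℓ hp2 E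
  obtain ⟨δ, β, hβ, hχβ⟩ := kmk (Ω := QBar) hℓ hζE (fun τ => θ (τ.restrictScalars K))
    (fun σ τ => h.mul _ (chv_mem E σ) _ (chv_mem E τ)) (chv_ft E θ h.ft)
  have ho : ∀ w : Pl E, ¬ Above ℓ w → (∀ v ∈ B, ¬ Over w v) →
      ((ℓ ^ (k + 1) : ℕ) : ℤ) ∣ ord w δ := by
    intro w hw hwB
    refine kmk_ord hℓ (Nat.succ_pos k) hζE hβ hχβ hw fun P hP hPw τ hτ => ?_
    obtain ⟨l, hl⟩ := exists_below (K := K) w
    have hlB : l ∉ B := fun hb => hwB l hb hl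
    have hl3 : ¬ Above (ℓ ^ (k + 1)) l := fun h3 =>
      hw ((pq_above hp' w).1 (chv_above' E w l hl h3))
    have hund : P.under (𝓞 K) = l.asIdeal := by
      rw [← (show w.asIdeal.comap (algebraMap (𝓞 K) (𝓞 E)) = l.asIdeal from hl), ← hPw]
      ext x
      exact Iff.rfl
    exact (h.unr l hl3 hlB P hP hund (τ.restrictScalars K) (fun x => hτ x)).2
  have h0 : md (mB (ℓ ^ (k + 1)) B) E ≠ ⊥ := chv_md E _ (mB_ne hp' B)
  have h3 : Ideal.span {(ℓ : 𝓞 E) ^ (k + 1 + 2)} ∣ md (mB (ℓ ^ (k + 1)) B) E := by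
    have e : md (mB (ℓ ^ (k + 1)) B) E =
        Ideal.span {((ℓ ^ (k + 1) : ℕ) : 𝓞 E) ^ 3} * md (∏ v ∈ B, v.asIdeal) E := by
      unfold md mB
      rw [Ideal.map_mul, Ideal.map_span, Set.image_singleton, map_pow, map_natCast]
    rw [e]
    refine Dvd.dvd.mul_right ?_ _
    rw [Ideal.dvd_iff_le, Ideal.span_singleton_le_span_singleton, Nat.cast_pow, ← pow_mul]
    exact pow_dvd_pow _ (by omega)
  have hb : ∀ w : Pl E, ¬ Above ℓ w → ¬ ((ℓ ^ (k + 1) : ℕ) : ℤ) ∣ ord w δ →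
      w.asIdeal ∣ md (mB (ℓ ^ (k + 1)) B) E := by
    intro w hw3 hw
    by_contra hnd
    apply hw
    refine ho w hw3 fun v hv hvw => hnd ?_
    have h4 : mB (ℓ ^ (k + 1)) B ≤ v.asIdeal := by
      unfold mB
      exact Ideal.le_of_dvd ((Finset.dvd_prod_of_mem _ hv).mul_left _)
    have h5 : md (mB (ℓ ^ (k + 1)) B) E ≤ w.asIdeal := by
      unfold md
      rw [Ideal.map_le_iff_le_comap]
      rw [show w.asIdeal.comap (algebraMap (𝓞 K) (𝓞 E)) = v.asIdeal from hvw]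
      exact h4
    exact Ideal.dvd_iff_le.2 h5
  obtain ⟨χ, hχ⟩ := rck hℓ hp2 (rk hℓ hp2 (k + 1)) hζE δ (md (mB (ℓ ^ (k + 1)) B) E) h0 h3 hb
  -- the value at a Frobenius element of `E`
  have hval : ∀ (w : Pl E), ¬ w.asIdeal ∣ md (mB (ℓ ^ (k + 1)) B) E → ¬ Above ℓ w →
      (∀ v ∈ B, ¬ Over w v) → ∀ (P : Ideal (𝓞 QBar)), P.IsPrime → P.under (𝓞 E) = w.asIdeal →
      ∀ F : Gal(QBar/E), (∀ x : 𝓞 QBar, F • x - x ^ nm w ∈ P) →
      χ.χ w.asIdeal = ep (ℓ ^ (k + 1)) (θ (F.restrictScalars K)) := by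
    intro w hnd hw hwB P hP hPw F hF
    obtain ⟨π, hπ⟩ := exists_unif w
    rw [hχ w hnd π hπ, ← kmk_fr hℓ hζE hβ hχβ hw (ho w hw hwB) hπ hP hPw hF]
  refine ⟨χ, ?_, ?_⟩
  · intro Q l hl3 hlB hnp τ hτ
    have hIT : IT QBar E l := th_IT E θ B h l hl3 hlB
    have hfix : ac (fr Q l) (ac τ E.val) = ac τ E.val := by
      ext x
      have h2 := (IntermediateField.mem_fixingSubgroup_iff E _).1 hτ x.1 x.2
      have h4 : τ ((τ⁻¹ * fr Q l * τ) (x : QBar)) = τ (x : QBar) := congrArg τ h2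
      have h5 : τ ((τ⁻¹ * fr Q l * τ) (x : QBar)) = fr Q l (τ (x : QBar)) := by
        rw [← AlgEquiv.mul_apply, ← mul_assoc, ← mul_assoc, mul_inv_cancel, one_mul, AlgEquiv.mul_apply]
      rw [h5] at h4
      exact h4
    have hnm : nm (pe E Q l (ac τ E.val)) = nm l := (dic_fix E Q l hIT (ac τ E.val)).1 hfix
    have hov : Over (pe E Q l (ac τ E.val)) l := pe_over E Q l (ac τ E.val)
    obtain ⟨w, hw⟩ : ∃ w : Pl E, w = pe E Q l (ac τ E.val) := ⟨_, rfl⟩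
    rw [← hw] at hnm hov ⊢
    have hw3 : ¬ Above ℓ w := fun h => hl3 (chv_above E w l hov ((pq_above hp' w).2 h))
    have hnd : ¬ w.asIdeal ∣ md (mB (ℓ ^ (k + 1)) B) E := fun hd =>
      chv_nd B l hl3 hlB (chv_nd2 E _ w l hov hd)
    have hwB : ∀ v ∈ B, ¬ Over w v := fun v hv hvw =>
      hlB ((HeightOneSpectrum.ext ((show w.asIdeal.comap (algebraMap (𝓞 K) (𝓞 E)) = v.asIdeal from hvw).symm.trans
        hov) : v = l) ▸ hv)
    have hPp : (τ⁻¹ • Q.P l).IsPrime := by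
      have := Q.prime l
      infer_instance
    have hPw : (τ⁻¹ • Q.P l).under (𝓞 E) = w.asIdeal := by
      rw [hw]
      ext x
      show algebraMap (𝓞 E) (𝓞 QBar) x ∈ τ⁻¹ • Q.P l ↔ _
      rw [Ideal.mem_inv_pointwise_smul_iff, mem_pe]
      exact Iff.rfl
    have hF : ∀ x : 𝓞 QBar, sE E (τ⁻¹ * fr Q l * τ) hτ • x - x ^ nm w ∈ τ⁻¹ • Q.P l := by
      intro x
      rw [Ideal.mem_inv_pointwise_smul_iff, smul_sub, hnm]
      have h5 := fr_spec Q l (τ • x)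
      have h6 : τ • (sE E (τ⁻¹ * fr Q l * τ) hτ • x) = fr Q l • (τ • x) := by
        have h7 : sE E (τ⁻¹ * fr Q l * τ) hτ • x = (τ⁻¹ * fr Q l * τ) • x := rfl
        rw [h7, mul_smul, mul_smul, smul_inv_smul]
      rw [h6, smul_pow']
      exact h5
    rw [hval w hnd hw3 hwB _ hPp hPw _ hF]
    congr 1
  · intro hne
    obtain ⟨θ', hT', ⟨σ, hσ, hθ⟩, himp⟩ := chv_el hℓ E θ B h hne
    have hζ' : IsPrimitiveRoot (ζ ^ ℓ ^ k) ℓ := by
      refine hζ.pow hq0 ?_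
      rw [pow_succ]
    have hζE' : IsPrimitiveRoot (algebraMap K E (ζ ^ ℓ ^ k)) ℓ :=
      hζ'.map_of_injective (algebraMap K E).injective
    obtain ⟨δ', hk', ho'⟩ := kmp hℓ hζ' E θ' B hT'
    have hpow : ¬ IsPow ℓ δ' := by
      intro hq
      apply hθ
      rw [← hk' σ hσ]
      exact (kk_eq_zero_iff (Ω := QBar) hℓ hζE' δ').2 hq _
    obtain ⟨w, hwE, hw3, hwp, ho0, hlg⟩ := H1.AR.knn hℓ hone hζE' hpow
      (Ideal.finite_factors h0).toFinset
    have hnd : ¬ w.asIdeal ∣ md (mB (ℓ ^ (k + 1)) B) E := fun hd =>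
      hwE ((Set.Finite.mem_toFinset _).2 hd)
    have hwB : ∀ v ∈ B, ¬ Over w v := by
      intro v hv hvw
      apply hnd
      have h4 : mB (ℓ ^ (k + 1)) B ≤ v.asIdeal := by
        unfold mB
        exact Ideal.le_of_dvd ((Finset.dvd_prod_of_mem _ hv).mul_left _)
      have h5 : md (mB (ℓ ^ (k + 1)) B) E ≤ w.asIdeal := by
        unfold md
        rw [Ideal.map_le_iff_le_comap]
        rw [show w.asIdeal.comap (algebraMap (𝓞 K) (𝓞 E)) = v.asIdeal from hvw]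
        exact h4
      exact Ideal.dvd_iff_le.2 h5
    obtain ⟨P, hP, hPw⟩ := gloc_over E QBar w.asIdeal w.isPrime
    obtain ⟨F, hF⟩ := gfrob_ex (K := E) (Ω := QBar) P hP hPw
    have hθF : θ' (F.restrictScalars K) ≠ 0 := by
      have h6 := hk' (F.restrictScalars K) (chv_mem E F)
      have h7 : sE E (F.restrictScalars K) (chv_mem E F) = F := rfl
      rw [h7] at h6
      rw [← h6, gfrob_unit hℓ hζE' hw3 P hP hPw F hF δ' ho0]
      exact hlg
    have hne2 := himp _ (chv_mem E F) hθF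
    refine ⟨w.asIdeal, w.ne_bot, chv_copr w _ hnd, ?_⟩
    rw [hval w hnd hw3 hwB P hP hPw F hF, sq, ← ep_addq hp', Ne, ep_eq_oneq hp']
    intro h2
    apply hne2
    have hco : Nat.Coprime 2 (ℓ ^ (k + 1)) :=
      Nat.Coprime.pow_right _ ((Nat.coprime_primes Nat.prime_two hℓ).2 (Ne.symm hp2))
    have hu : IsUnit ((2 : ℕ) : ZMod (ℓ ^ (k + 1))) := (ZMod.isUnit_iff_coprime 2 _).2 hco
    rw [← two_mul] at h2
    have h8 : ((2 : ℕ) : ZMod (ℓ ^ (k + 1))) * θ (F.restrictScalars K) =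
        ((2 : ℕ) : ZMod (ℓ ^ (k + 1))) * 0 := by
      rw [mul_zero]
      exact_mod_cast h2
    exact hu.mul_left_cancel h8

end H57.GP.Q
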