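import Pool.Agent.H57.GP.Tel

/-!
# H93 GQ DEF: the chapter GP for characters of prime power order

`PQ ℓ p`: `p = ℓ ^ (k + 1)` is a power of the prime `ℓ` (`p` is the order of the characters; all definitions of H57/GP/Def make sense for every `p`).
* `ep_add`, `ep_eq_one`, `ep_sum` for an arbitrary order; the geometric sum.
* `pq_above`: `Above p v ↔ Above ℓ v`.
-/

set_option autoImplicit false

open scoped NumberField Pointwise Classical
open IsDedekindDomain H63.MA NumberField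

noncomputable section

namespace H57.GP.Q

/-- `p` is a power of the prime `ℓ` -/
def PQ (ℓ p : ℕ) : Prop := ℓ.Prime ∧ ∃ k, p = ℓ ^ (k + 1)

variable {ℓ p : ℕ}

theorem PQ.prime (hp : PQ ℓ p) : ℓ.Prime := hp.1

theorem PQ.ne_zero (hp : PQ ℓ p) : p ≠ 0 := by
  obtain ⟨h, k, rfl⟩ := hp
  exact pow_ne_zero _ h.ne_zero

theorem PQ.pos (hp : PQ ℓ p) : 0 < p := Nat.pos_of_ne_zero hp.ne_zero

theorem PQ.neZero (hp : PQ ℓ p) : NeZero p := ⟨hp.ne_zero⟩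

theorem PQ.one_lt (hp : PQ ℓ p) : 1 < p := by
  obtain ⟨h, k, rfl⟩ := hp
  exact Nat.one_lt_pow (Nat.succ_ne_zero k) h.one_lt

theorem PQ.one_le (hp : PQ ℓ p) : 1 ≤ p := hp.one_lt.le

theorem PQ.two_le (hp : PQ ℓ p) : 2 ≤ p := hp.one_lt

theorem PQ.dvd (hp : PQ ℓ p) : ℓ ∣ p := by
  obtain ⟨h, k, rfl⟩ := hp
  exact dvd_pow_self ℓ (Nat.succ_ne_zero k)

theorem PQ.le (hp : PQ ℓ p) : ℓ ≤ p := Nat.le_of_dvd hp.pos hp.dvd

theorem PQ.pg (hp : PQ ℓ p) {G : Type} [Group G] (h : IsPGroup p G) : IsPGroup ℓ G := by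
  obtain ⟨hl, k, rfl⟩ := hp
  intro g
  obtain ⟨j, hj⟩ := h g
  exact ⟨(k + 1) * j, by rw [pow_mul]; exact hj⟩

theorem PQ.pg' (hp : PQ ℓ p) {G : Type} [Group G] (h : IsPGroup ℓ G) : IsPGroup p G := by
  obtain ⟨hl, k, rfl⟩ := hp
  intro g
  obtain ⟨j, hj⟩ := h g
  refine ⟨j, ?_⟩
  rw [← pow_mul, add_mul, one_mul, pow_add, mul_comm, pow_mul, pow_mul, hj, one_pow]

theorem pq_pow {ℓ : ℕ} (h : ℓ.Prime) (k : ℕ) : PQ ℓ (ℓ ^ (k + 1)) := ⟨h, k, rfl⟩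

theorem ep_addq (hp : PQ ℓ p) (a b : ZMod p) : ep p (a + b) = ep p a * ep p b := by
  have := hp.neZero
  rw [rayc_std, rayc_std, rayc_std, AddChar.map_add_eq_mul]

theorem ep_eq_oneq (hp : PQ ℓ p) (a : ZMod p) : ep p a = 1 ↔ a = 0 := by
  have := hp.neZero
  rw [rayc_std]
  constructor
  · intro h
    apply ZMod.injective_stdAddChar
    rw [h, AddChar.map_zero_eq_one]
  · rintro rfl
    rw [AddChar.map_zero_eq_one]

theorem ep_natq (hp : PQ ℓ p) (j : ℕ) (a : ZMod p) : ep p (j * a) = ep p a ^ j := by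
  have := hp.neZero
  rw [rayc_std, rayc_std, ← AddChar.map_nsmul_eq_pow, nsmul_eq_mul]

/-- the geometric sum -/
theorem ep_geo (hp : PQ ℓ p) {a : ZMod p} (ha : (ℓ : ZMod p) * a = 0) (h0 : a ≠ 0) :
    ∑ j ∈ Finset.range ℓ, ep p (j * a) = 0 := by
  have h1 : ep p a ≠ 1 := fun h => h0 ((ep_eq_oneq hp a).1 h)
  have h2 : ep p a ^ ℓ = 1 := by
    rw [← ep_natq hp, ha, ep_zero]
  rw [Finset.sum_congr rfl fun j _ => ep_natq hp j a]
  have h3 := geom_sum_mul (ep p a) ℓ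
  rw [h2, sub_self] at h3
  exact (mul_eq_zero.1 h3).resolve_right (sub_ne_zero.2 h1)

/-- multiples of an element killed by `ℓ` -/
theorem pq_mul (hp : PQ ℓ p) {a : ZMod p} (ha : (ℓ : ZMod p) * a = 0) (h0 : a ≠ 0) {j : ℕ}
    (hj : 0 < j) (hjl : j < ℓ) : (j : ZMod p) * a ≠ 0 := by
  intro h1
  apply h0
  have hco : Nat.Coprime j ℓ := (Nat.coprime_of_lt_prime hj.ne' hjl hp.prime).symm
  have h2 := Nat.gcd_eq_gcd_ab j ℓ
  rw [Nat.Coprime] at hco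
  rw [hco] at h2
  have h3 := congrArg (fun t : ℤ => (t : ZMod p) * a) h2
  simp only [Nat.cast_one, Int.cast_one, one_mul, Int.cast_add, Int.cast_mul, Int.cast_natCast] at h3
  rw [h3, add_mul, mul_assoc, mul_assoc, mul_comm ((Nat.gcdA j ℓ : ℤ) : ZMod p) a, ← mul_assoc, h1,
    zero_mul, mul_comm ((Nat.gcdB j ℓ : ℤ) : ZMod p) a, ← mul_assoc, ha, zero_mul, add_zero]

variable {K : Type} [Field K] [NumberField K]

theorem pq_above (hp : PQ ℓ p) (v : Pl K) : Above p v ↔ Above ℓ v := by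
  obtain ⟨h, k, rfl⟩ := hp
  unfold Above
  rw [Nat.cast_pow]
  exact ⟨fun h => v.isPrime.mem_of_pow_mem _ h, fun h => Ideal.pow_mem_of_mem _ h _ (Nat.succ_pos k)⟩

end H57.GP.Q
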