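import Pool.Agent.H93.GQ.Tel
import Pool.Agent.H57.GP.Dec

/-!
# H93 GQ DEC: decomposition by the largest ramified prime, characters of prime power order (as H57/GP/Dec)
-/

set_option autoImplicit false

open scoped NumberField Pointwise Classical
open IsDedekindDomain H63.MA NumberField H36.QA H57.LI H57.LC H67.SX H38.ML H57.SL

noncomputable section

namespace H57.GP.Q

variable {K : IntermediateField ℚ QBar} [NumberField K]

theorem dec {ℓ p : ℕ} (hp : PQ ℓ p) {G : Type} [Group G] [Fintype G] (hG : IsPGroup ℓ G)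
    (φ : Gal(QBar/K) →* G) (hφ : Function.Surjective φ) (m : Finset (Pl K)) {N b : ℕ}
    (hb : Fintype.card G ≤ b) {f : G → ℂ} (hf : Raw p N f) :
    ∃ F : Pl K → G → ℂ, (∀ y, f y - PD (⨆ v ∈ m, (Ic v).map φ) f y = ∑ z ∈ m, F z y) ∧
      ∀ z ∈ m, ∃ D : Subgroup G, D.Normal ∧ (∀ v ∈ m, nm z < nm v → (Ic v).map φ ≤ D) ∧
        Cb p (N * (p * b + 1)) D (D ⊔ (Ic z).map φ) (F z) := by
  induction m using Finset.induction_on_min_value (fun v : Pl K => nm v) with
  | empty =>
    refine ⟨fun _ _ => 0, fun y => ?_, fun z hz => absurd hz (Finset.notMem_empty z)⟩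
    have h1 : (⨆ v ∈ (∅ : Finset (Pl K)), (Ic v).map φ : Subgroup G) = ⊥ := by simp
    rw [h1, pd_bot, sub_self, Finset.sum_empty]
  | insert z s hz hmin ih =>
    obtain ⟨F, hF, hC⟩ := ih
    obtain ⟨D, hD⟩ : ∃ D : Subgroup G, D = ⨆ v ∈ s, (Ic v).map φ := ⟨_, rfl⟩
    have hDn : D.Normal := by
      rw [hD]
      exact sup_normal φ hφ s
    have hZn : ((Ic z).map φ).Normal := (ic_normal z).map φ hφ
    have hsup : (⨆ v ∈ insert z s, (Ic v).map φ : Subgroup G) = D ⊔ (Ic z).map φ := by
      rw [Finset.iSup_insert, hD, sup_comm]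
    have hDn' : (D ⊔ (Ic z).map φ).Normal := Subgroup.sup_normal _ _
    rw [← hD] at hF
    obtain ⟨F', hFz, hFw⟩ : ∃ F' : Pl K → G → ℂ,
        (F' z = fun y => PD D f y - PD (D ⊔ (Ic z).map φ) f y) ∧ ∀ w, w ≠ z → F' w = F w :=
      ⟨fun w => if w = z then fun y => PD D f y - PD (D ⊔ (Ic z).map φ) f y else F w,
        if_pos rfl, fun w hw => if_neg hw⟩
    refine ⟨F', fun y => ?_, fun w hw => ?_⟩
    · rw [hsup, Finset.sum_insert hz, hFz]
      have h1 : ∑ w ∈ s, F' w y = ∑ w ∈ s, F w y := by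
        refine Finset.sum_congr rfl fun w hw => ?_
        rw [hFw w (fun h => hz (h ▸ hw))]
      rw [h1, ← hF y]
      ring
    · rcases Finset.mem_insert.1 hw with rfl | hws
      · refine ⟨D, hDn, fun v hv hlt => ?_, ?_⟩
        · rcases Finset.mem_insert.1 hv with rfl | hvs
          · exact absurd hlt (lt_irrefl _)
          · rw [hD]
            exact le_biSup (fun v : Pl K => (Ic v).map φ) hvs
        · rw [hFz]
          exact tel hp hG D _ hDn hDn' le_sup_left hb hf
      · have hne : w ≠ z := fun h => hz (h ▸ hws)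
        obtain ⟨D1, h1, h2, h3⟩ := hC w hws
        refine ⟨D1, h1, fun v hv hlt => ?_, ?_⟩
        · rcases Finset.mem_insert.1 hv with rfl | hvs
          · exact absurd hlt (not_lt.2 (hmin w hws))
          · exact h2 v hvs hlt
        · rw [hFw w hne]
          exact h3

end H57.GP.Q
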