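import Pool.Agent.H93.GQ.Chr
import Pool.Agent.H57.GP.Crx

/-!
# H93 GQ CRX: as H57/GP/Crx, characters of prime power order `p = ℓ ^ (k + 1)`
-/

set_option autoImplicit false

open scoped NumberField Pointwise Classical ComplexConjugate
open IsDedekindDomain H63.MA NumberField H36.QA H57.LI H57.LC H67.SX H38.ML H57.SL

noncomputable section

namespace H57.GP.Q
private theorem crx_conj {ℓ p : ℕ} (hp : PQ ℓ p) (a : ZMod p) : ep p (-a) = conj (ep p a) := by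
  have h1 : ep p a * ep p (-a) = 1 := by rw [← ep_addq hp, add_neg_cancel, ep_zero]
  have h2 : conj (ep p a) * ep p a = 1 := by
    rw [← Complex.normSq_eq_conj_mul_self, Complex.normSq_eq_norm_sq, ep_norm]
    norm_num
  calc ep p (-a) = (conj (ep p a) * ep p a) * ep p (-a) := by rw [h2, one_mul]
    _ = conj (ep p a) := by rw [mul_assoc, h1, mul_one]

private theorem crx_th {ℓ p : ℕ} (hp : PQ ℓ p) {G G' : Type} [Group G] [Group G'] (H : Subgroup G)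
    (H' : Subgroup G') (ψ : G → ZMod p) (ψ' : G' → ZMod p) (y : G × G') :
    th (H.prod H') (fun y => ψ y.1 - ψ' y.2) y = th H ψ y.1 * conj (th H' ψ' y.2) := by
  unfold th
  by_cases h1 : y.1 ∈ H
  · by_cases h2 : y.2 ∈ H'
    · rw [if_pos (Subgroup.mem_prod.2 ⟨h1, h2⟩), if_pos h1, if_pos h2]
      show ep p (ψ y.1 - ψ' y.2) = _
      rw [sub_eq_add_neg, ep_addq hp, crx_conj hp]
    · rw [if_neg (fun h => h2 (Subgroup.mem_prod.1 h).2), if_neg h2, map_zero, mul_zero]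
  · rw [if_neg (fun h => h1 (Subgroup.mem_prod.1 h).1), if_neg h1, zero_mul]

theorem crx_mi {ℓ p : ℕ} (hp : PQ ℓ p) {K : IntermediateField ℚ QBar} [NumberField K]
    {G G' : Type} [Group G] [Fintype G] [Group G'] [Fintype G'] (φ : Gal(QBar/K) →* G)
    (φ' : Gal(QBar/K) →* G') (H : Subgroup G) (H' : Subgroup G') (ψ : G → ZMod p)
    (ψ' : G' → ZMod p) (σ : Gal(QBar/K)) :
    mi (φ.prod φ') (H.prod H') (fun y => ψ y.1 - ψ' y.2) σ =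
      mi φ H ψ σ * conj (mi φ' H' ψ' σ) := by
  unfold mi
  have hc : Fintype.card (H.prod H') = Fintype.card H * Fintype.card H' := by
    rw [← Fintype.card_prod]
    exact Fintype.card_congr (Subgroup.prodEquiv H H').toEquiv
  have hs : ∑ g : G × G', th (H.prod H') (fun y => ψ y.1 - ψ' y.2) (g⁻¹ * (φ.prod φ') σ * g) =
      (∑ g : G, th H ψ (g⁻¹ * φ σ * g)) * conj (∑ g : G', th H' ψ' (g⁻¹ * φ' σ * g)) := by
    rw [map_sum, Finset.sum_mul_sum, Fintype.sum_prod_type]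
    refine Finset.sum_congr rfl fun g _ => Finset.sum_congr rfl fun g' _ => ?_
    rw [crx_th hp]
    rfl
  rw [hs, hc, Nat.cast_mul, mul_inv, map_mul, map_inv₀, map_natCast]
  ring

theorem crx {ℓ p : ℕ} (hp : PQ ℓ p) (hp2 : ℓ ≠ 2) {K : IntermediateField ℚ QBar} [NumberField K]
    {ζ : K} (hζ : IsPrimitiveRoot ζ p) (b : ℕ) : ∃ (C : ℝ) (A : ℕ) (δ : ℝ), 1 ≤ C ∧ 0 < δ ∧
    δ ≤ 1 / 4 ∧ ∀ (G G' : Type) [Group G] [Fintype G] [Group G'] [Fintype G']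
      (φ : Gal(QBar/K) →* G) (φ' : Gal(QBar/K) →* G') (H : Subgroup G) (H' : Subgroup G')
      (ψ : G → ZMod p) (ψ' : G' → ZMod p) (B B' Bd : Finset (Pl K)) (Q : DP K QBar)
      (lam lam' : Pl K → ℂ),
      Fintype.card G ≤ b → Fintype.card G' ≤ b → Ft φ → Ft φ' → Lc H ψ → Lc H' ψ' →
      (∀ l, ¬ Above p l → l ∉ B → Ud φ H ψ l) → (∀ l, ¬ Above p l → l ∉ B' → Ud φ' H' ψ' l) →
      Cr φ H ψ φ' H' ψ' → B ∪ B' ⊆ Bd → (∀ l, ‖lam l‖ ≤ b) → (∀ l, ‖lam' l‖ ≤ b) →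
      (∀ l, l ∉ Bd → ¬ Above p l → lam l = mi φ H ψ (fr Q l) ∧ lam' l = mi φ' H' ψ' (fr Q l)) →
      ∀ Y : ℝ, 1 ≤ Y → ‖∑ s ∈ (prK K).SF Y, ∏ l ∈ s, (lam l * conj (lam' l))‖ ≤
        C * C ^ Bd.card * nr (B ∪ B') ^ A * Y ^ (1 - δ) := by
  obtain ⟨C, A, δ, hC, hδ, hδ4, h⟩ := chr hp hp2 hζ (b * b)
  refine ⟨C, A, δ, hC, hδ, hδ4, ?_⟩
  intro G G' _ _ _ _ φ φ' H H' ψ ψ' B B' Bd Q lam lam' hG hG' hf hf' hψ hψ' hU hU' hCr hB hl hl'
    hlam Y hY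
  refine h (G × G') (φ.prod φ') (H.prod H') (fun y => ψ y.1 - ψ' y.2) (B ∪ B') Bd Q
    (fun l => lam l * conj (lam' l)) ?_ ?_ ?_ ?_ ?_ hB ?_ ?_ Y hY
  · rw [Fintype.card_prod]
    exact Nat.mul_le_mul hG hG'
  · obtain ⟨M, hM, h1⟩ := hf
    obtain ⟨M', hM', h2⟩ := hf'
    refine ⟨M ⊔ M', IntermediateField.finiteDimensional_sup M M', fun σ hσ => ?_⟩
    have e1 : φ σ = 1 := h1 σ (IntermediateField.fixingSubgroup_antitone le_sup_left hσ)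
    have e2 : φ' σ = 1 := h2 σ (IntermediateField.fixingSubgroup_antitone le_sup_right hσ)
    exact Prod.ext e1 e2
  · intro a ha c hc
    obtain ⟨ha1, ha2⟩ := Subgroup.mem_prod.1 ha
    obtain ⟨hc1, hc2⟩ := Subgroup.mem_prod.1 hc
    show ψ (a.1 * c.1) - ψ' (a.2 * c.2) = (ψ a.1 - ψ' a.2) + (ψ c.1 - ψ' c.2)
    rw [hψ _ ha1 _ hc1, hψ' _ ha2 _ hc2]
    ring
  · intro l hlp hlB P hP hPl τ hτ x
    have g1 := hU l hlp (fun hh => hlB (Finset.mem_union_left _ hh)) P hP hPl τ hτ x.1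
    have g2 := hU' l hlp (fun hh => hlB (Finset.mem_union_right _ hh)) P hP hPl τ hτ x.2
    refine ⟨Subgroup.mem_prod.2 ⟨g1.1, g2.1⟩, ?_⟩
    show ψ (x.1⁻¹ * φ τ * x.1) - ψ' (x.2⁻¹ * φ' τ * x.2) = 0
    rw [g1.2, g2.2, sub_zero]
  · intro x
    obtain ⟨y, hy, hy0, hyx⟩ := hCr
    obtain ⟨σ, h1, h2⟩ := hyx x.1
    have e : x.1⁻¹ * φ σ * x.1 = y := by rw [h1]; group
    refine ⟨σ, Subgroup.mem_prod.2 ⟨?_, (h2 x.2).1⟩, ?_⟩
    · show x.1⁻¹ * φ σ * x.1 ∈ H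
      rw [e]
      exact hy
    · show ψ (x.1⁻¹ * φ σ * x.1) - ψ' (x.2⁻¹ * φ' σ * x.2) ≠ 0
      rw [e, (h2 x.2).2, sub_zero]
      exact hy0
  · intro l
    rw [norm_mul, RCLike.norm_conj, Nat.cast_mul]
    exact mul_le_mul (hl l) (hl' l) (norm_nonneg _) (Nat.cast_nonneg _)
  · intro l hl1 hl2
    obtain ⟨g1, g2⟩ := hlam l hl1 hl2
    show lam l * conj (lam' l) = _
    rw [crx_mi hp, g1, g2]

end H57.GP.Q
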