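import Pool.Agent.H57.GP.Mb
import Pool.Agent.H57.GP.Exb
import Pool.Agent.H57.GP.Bga
import Pool.Agent.H93.GQ.Crx

/-!
# H93 GQ BGA: as H57/GP/Bga, characters of prime power order `p = ℓ ^ (k + 1)`
-/

set_option autoImplicit false

open scoped NumberField Pointwise Classical ComplexConjugate
open IsDedekindDomain H63.MA NumberField H36.QA H57.LI H57.LC H67.SX H38.ML H57.SL H57.AN

noncomputable section

namespace H57.GP.Q
/-- the set of the primes of norm at most `x` -/
private theorem bga_PB {K : Type} [Field K] [NumberField K] (x : ℝ) : (prK K).P x = PB K x := by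
  ext w
  rw [Pr.mem_P, mem_PB, prK_N]

private theorem bga_nr {K : Type} [Field K] [NumberField K] (S m : Finset (Pl K)) (a b : Pl K) (Z : ℝ)
    (hZ : 1 ≤ Z) (ha : (nm a : ℝ) ≤ Z) (hb : (nm b : ℝ) ≤ Z) :
    nr ((S ∪ (insert a m).filter (fun v => nm v ≤ nm a)) ∪
      (S ∪ (insert b m).filter (fun v => nm v ≤ nm b))) ≤ nr S * Z ^ (m.card + 2) := by
  set T : Finset (Pl K) := (insert a (insert b m)).filter (fun v => (nm v : ℝ) ≤ Z) with hT
  have h1 : (S ∪ (insert a m).filter (fun v => nm v ≤ nm a)) ∪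
      (S ∪ (insert b m).filter (fun v => nm v ≤ nm b)) ⊆ S ∪ T := by
    intro v hv
    rw [Finset.mem_union, Finset.mem_union, Finset.mem_union, Finset.mem_filter, Finset.mem_filter,
      Finset.mem_insert, Finset.mem_insert] at hv
    rw [Finset.mem_union, hT, Finset.mem_filter, Finset.mem_insert, Finset.mem_insert]
    rcases hv with (h | ⟨h, h'⟩) | (h | ⟨h, h'⟩)
    · exact Or.inl h
    · right
      have : (nm v : ℝ) ≤ nm a := by exact_mod_cast h'
      exact ⟨by tauto, this.trans ha⟩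
    · exact Or.inl h
    · right
      have : (nm v : ℝ) ≤ nm b := by exact_mod_cast h'
      exact ⟨by tauto, this.trans hb⟩
  have h2 : nr T ≤ Z ^ (m.card + 2) := by
    have h3 : nr T ≤ Z ^ T.card := by
      unfold nr
      calc ∏ v ∈ T, (nm v : ℝ) ≤ ∏ _v ∈ T, Z :=
            Finset.prod_le_prod (fun _ _ => Nat.cast_nonneg _)
              (fun v hv => (Finset.mem_filter.1 hv).2)
        _ = Z ^ T.card := by rw [Finset.prod_const]
    refine h3.trans (pow_le_pow_right₀ hZ ?_)
    refine (Finset.card_filter_le _ _).trans ((Finset.card_insert_le _ _).trans ?_)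
    have := Finset.card_insert_le b m
    omega
  have h4 : 1 ≤ nr S := one_le_nr S
  calc _ ≤ nr (S ∪ T) := nr_mono h1
    _ ≤ nr S * nr T := bilA_nr_union S T
    _ ≤ nr S * Z ^ (m.card + 2) := mul_le_mul_of_nonneg_left h2 (by linarith)

/-- the size of the constants -/
private theorem bga_D (C0 nS Z : ℝ) (A cS cm cB : ℕ) (hC0 : 1 ≤ C0) (hnS : 1 ≤ nS) (hZ : 6 ≤ Z)
    (hcB : cB ≤ cS + cm + 2) (L : ℝ) (hL : L = ((cm : ℝ) + 2) * Real.log Z) (n : ℝ) (hn0 : 0 ≤ n)
    (hn : n ≤ nS * Z ^ (cm + 2)) :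
    C0 * C0 ^ cB * n ^ A ≤
      Real.exp ((Real.log C0 * (cS + 2) + A * (Real.log nS + 1) + 2) * L) := by
  have hZ0 : 0 < Z := by linarith
  have hlogZ : 1 ≤ Real.log Z := by
    rw [Real.le_log_iff_exp_le hZ0]
    exact (Real.exp_one_lt_d9.le.trans (by norm_num)).trans hZ
  have hl0 : 0 ≤ Real.log C0 := Real.log_nonneg hC0
  have hlS : 0 ≤ Real.log nS := Real.log_nonneg hnS
  have hLm : (cm : ℝ) + 2 ≤ L := by
    rw [hL]
    have : (0 : ℝ) ≤ (cm : ℝ) + 2 := by positivity
    nlinarith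
  have hcm : (0 : ℝ) ≤ cm := Nat.cast_nonneg _
  have hcS : (0 : ℝ) ≤ cS := Nat.cast_nonneg _
  have hL1 : 1 ≤ L := by linarith
  have h1 : C0 * C0 ^ cB ≤ Real.exp (Real.log C0 * (cS + 2) * L) := by
    calc C0 * C0 ^ cB = C0 ^ (cB + 1) := by ring
      _ ≤ C0 ^ (cS + cm + 3) := pow_le_pow_right₀ hC0 (by omega)
      _ = Real.exp (Real.log C0 * ((cS : ℝ) + cm + 3)) := by
          rw [← Real.rpow_natCast, Real.rpow_def_of_pos (by linarith)]
          push_cast
          rfl
      _ ≤ Real.exp (Real.log C0 * (cS + 2) * L) := by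
          apply Real.exp_le_exp.2
          rw [mul_assoc]
          apply mul_le_mul_of_nonneg_left _ hl0
          have h2 : ((cS : ℝ) + 2) * (cm + 2) ≤ (cS + 2) * L :=
            mul_le_mul_of_nonneg_left hLm (by positivity)
          have h3 : (0 : ℝ) ≤ cS * cm := by positivity
          nlinarith
  have h2 : n ^ A ≤ Real.exp (A * (Real.log nS + 1) * L) := by
    have h3 : nS * Z ^ (cm + 2) = Real.exp (Real.log nS + L) := by
      rw [Real.exp_add, Real.exp_log (by linarith), hL]
      congr 1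
      rw [← Real.rpow_natCast, Real.rpow_def_of_pos hZ0]
      push_cast
      ring_nf
    have h4 : n ≤ Real.exp ((Real.log nS + 1) * L) := by
      refine (hn.trans h3.le).trans (Real.exp_le_exp.2 ?_)
      nlinarith
    calc n ^ A ≤ (Real.exp ((Real.log nS + 1) * L)) ^ A := pow_le_pow_left₀ hn0 h4 A
      _ = Real.exp (A * (Real.log nS + 1) * L) := by
          rw [← Real.exp_nat_mul]; ring_nf
  calc C0 * C0 ^ cB * n ^ A
      ≤ Real.exp (Real.log C0 * (cS + 2) * L) * Real.exp (A * (Real.log nS + 1) * L) :=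
        mul_le_mul h1 h2 (by positivity) (by positivity)
    _ = Real.exp (Real.log C0 * (cS + 2) * L + A * (Real.log nS + 1) * L) := (Real.exp_add _ _).symm
    _ ≤ _ := Real.exp_le_exp.2 (by nlinarith)

/-- the final inequality -/
private theorem bga_fin (C2 C' U x L : ℝ) (hC2 : 1 ≤ C2) (hC' : 1 ≤ C') (hU : 3 ≤ U) (hx : 3 ≤ x)
    (hL : 1 ≤ L) : C2 * (1 + C' * L / Real.log x) *
      (Real.log U + Real.log (C' * L) + Real.log (Real.log x) + 1) ≤
      C2 * (1 + C') ^ 2 * (1 + L / Real.log x) *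
        (Real.log U + Real.log L + Real.log (Real.log x) + 1) := by
  have hlx : 1 ≤ Real.log x := by
    rw [Real.le_log_iff_exp_le (by linarith)]
    exact (Real.exp_one_lt_d9.le.trans (by norm_num)).trans hx
  have hllx : 0 ≤ Real.log (Real.log x) := Real.log_nonneg hlx
  have hlU : 0 ≤ Real.log U := Real.log_nonneg (by linarith)
  have hlL : 0 ≤ Real.log L := Real.log_nonneg hL
  have hlC : 0 ≤ Real.log C' := Real.log_nonneg hC'
  have hlC2 : Real.log C' ≤ C' := (Real.log_le_sub_one_of_pos (by linarith)).trans (by linarith)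
  rw [Real.log_mul (by linarith) (by linarith)]
  have hq : 0 ≤ L / Real.log x := by positivity
  have h1 : 1 + C' * L / Real.log x ≤ (1 + C') * (1 + L / Real.log x) := by
    rw [mul_div_assoc]
    nlinarith
  have h2 : Real.log U + (Real.log C' + Real.log L) + Real.log (Real.log x) + 1 ≤
      (1 + C') * (Real.log U + Real.log L + Real.log (Real.log x) + 1) := by
    nlinarith [mul_nonneg (by linarith : 0 ≤ C') (by linarith :
      0 ≤ Real.log U + Real.log L + Real.log (Real.log x))]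
  have h3 : 0 ≤ 1 + C' * L / Real.log x := by positivity
  calc C2 * (1 + C' * L / Real.log x) *
        (Real.log U + (Real.log C' + Real.log L) + Real.log (Real.log x) + 1)
      = C2 * ((1 + C' * L / Real.log x) *
        (Real.log U + (Real.log C' + Real.log L) + Real.log (Real.log x) + 1)) := by ring
    _ ≤ C2 * (((1 + C') * (1 + L / Real.log x)) *
        ((1 + C') * (Real.log U + Real.log L + Real.log (Real.log x) + 1))) :=
        mul_le_mul_of_nonneg_left (mul_le_mul h1 h2 (by positivity) (by positivity)) (by linarith)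
    _ = _ := by ring

theorem bga {ℓ p : ℕ} (hp : PQ ℓ p) (hp2 : ℓ ≠ 2) {K : IntermediateField ℚ QBar} [NumberField K]
    {ζ : K} (hζ : IsPrimitiveRoot ζ p) (S : Finset (Pl K)) (hS : ∀ v : Pl K, Above p v → v ∈ S)
    (b : ℕ) (hb : 1 ≤ b) : ∃ C : ℝ, 1 ≤ C ∧ ∀ (U Z x L : ℝ) (m : Finset (Pl K)), 3 ≤ U → 3 ≤ Z →
      3 ≤ x → L = ((m.card : ℝ) + 2) * Real.log (2 * Z) → (U * L) ^ C ≤ x →
      ∀ (J : Type) [Fintype J] (z : J → Pl K), Function.Injective z →
      (∀ j, z j ∉ S ∧ z j ∉ m ∧ (nm (z j) : ℝ) ≤ 2 * Z) →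
      ∀ (G : J → Type) [∀ j, Group (G j)] [∀ j, Fintype (G j)] (φ : ∀ j, Gal(QBar/K) →* G j)
        (H : ∀ j, Subgroup (G j)) (ψ : ∀ j, G j → ZMod p),
      (∀ j, Mb p b S (insert (z j) m) (z j) (φ j) (H j) (ψ j)) → ∀ Q : DP K QBar,
      (∀ j, x / U ≤ ‖sg x (S ∪ insert (z j) m) (fun w => mi (φ j) (H j) (ψ j) (fr Q w))‖) →
      (Fintype.card J : ℝ) ≤ Real.exp (C * (1 + L / Real.log x) *
        (Real.log U + Real.log L + Real.log (Real.log x) + 1)) := by
  obtain ⟨C0, A, δ, hC0, hδ, hδ4, hcrx⟩ := crx hp hp2 hζ b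
  obtain ⟨C2, hC2, hexb⟩ := exb (prK K) b hb δ hδ hδ4
  have hnS : 1 ≤ nr S := one_le_nr S
  obtain ⟨C', hC'⟩ : ∃ C' : ℝ, C' = Real.log C0 * ((S.card : ℝ) + 2) +
    A * (Real.log (nr S) + 1) + 2 := ⟨_, rfl⟩
  have hl0 : 0 ≤ Real.log C0 := Real.log_nonneg hC0
  have hlS : 0 ≤ Real.log (nr S) := Real.log_nonneg hnS
  have hC'2 : 2 ≤ C' := by
    rw [hC']
    have h1 : 0 ≤ Real.log C0 * ((S.card : ℝ) + 2) := by positivity
    have h2 : 0 ≤ (A : ℝ) * (Real.log (nr S) + 1) := by positivity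
    linarith
  refine ⟨C2 * (1 + C') ^ 2, by nlinarith, ?_⟩
  intro U Z x L m hU hZ hx hL hUx J _ z hz hzz G _ _ φ H ψ hM Q hJ
  have hZ6 : 6 ≤ 2 * Z := by linarith
  have hlogZ : 1 ≤ Real.log (2 * Z) := by
    rw [Real.le_log_iff_exp_le (by linarith)]
    exact (Real.exp_one_lt_d9.le.trans (by norm_num)).trans hZ6
  have hL1 : 1 ≤ L := by
    rw [hL]
    have : (0 : ℝ) ≤ m.card := Nat.cast_nonneg _
    nlinarith
  have hCL : 2 ≤ C' * L := by nlinarith
  have hD3 : 3 ≤ Real.exp (C' * L) := by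
    have h1 : Real.exp 2 ≤ Real.exp (C' * L) := Real.exp_le_exp.2 hCL
    have h2 : (2 : ℝ) + 1 ≤ Real.exp 2 := Real.add_one_le_exp 2
    linarith
  have hcond : (U * Real.log (Real.exp (C' * L))) ^ C2 ≤ x := by
    rw [Real.log_exp]
    refine le_trans ?_ hUx
    have h1 : C' ≤ U ^ C' := by
      have h2 : (1 : ℝ) + C' * Real.log U ≤ U ^ C' := by
        rw [Real.rpow_def_of_pos (by linarith), mul_comm (Real.log U)]
        linarith [Real.add_one_le_exp (C' * Real.log U)]
      have h3 : 1 ≤ Real.log U := by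
        rw [Real.le_log_iff_exp_le (by linarith)]
        exact (Real.exp_one_lt_d9.le.trans (by norm_num)).trans hU
      nlinarith
    have h4 : U * (C' * L) ≤ (U * L) ^ (1 + C') := by
      rw [Real.rpow_add (by positivity), Real.rpow_one, Real.mul_rpow (by linarith) (by linarith)]
      have h5 : 1 ≤ L ^ C' := Real.one_le_rpow hL1 (by linarith)
      calc U * (C' * L) = (U * L) * (C' * 1) := by ring
        _ ≤ (U * L) * (U ^ C' * L ^ C') := by
            apply mul_le_mul_of_nonneg_left _ (by positivity)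
            exact mul_le_mul h1 h5 (by norm_num) (by positivity)
    calc (U * (C' * L)) ^ C2 ≤ ((U * L) ^ (1 + C')) ^ C2 :=
          Real.rpow_le_rpow (by positivity) h4 (by linarith)
      _ = (U * L) ^ ((1 + C') * C2) := by rw [← Real.rpow_mul (by positivity)]
      _ ≤ (U * L) ^ (C2 * (1 + C') ^ 2) := by
          apply Real.rpow_le_rpow_of_exponent_le (by nlinarith)
          have h6 : 1 * (1 + C') ≤ (1 + C') * (1 + C') :=
            mul_le_mul_of_nonneg_right (by linarith) (by linarith)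
          nlinarith
  -- the functions
  obtain ⟨lam, hlam⟩ : ∃ lam : J → Pl K → ℂ, ∀ j w, lam j w =
      if w ∈ S ∪ insert (z j) m then 0 else mi (φ j) (H j) (ψ j) (fr Q w) := ⟨_, fun _ _ => rfl⟩
  have hlb : ∀ j w, ‖lam j w‖ ≤ b := by
    intro j w
    rw [hlam]
    split_ifs with h
    · rw [norm_zero]; exact Nat.cast_nonneg b
    · exact (mi_bd (φ j) (H j) (ψ j) (fr Q w)).trans (by exact_mod_cast (hM j).card)
  have hsum : ∀ j, ∑ i ∈ (prK K).P x, lam j i =
      sg x (S ∪ insert (z j) m) (fun w => mi (φ j) (H j) (ψ j) (fr Q w)) := by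
    intro j
    rw [bga_PB, sg, Finset.sum_filter]
    refine Finset.sum_congr rfl fun w _ => ?_
    rw [hlam]
    by_cases h : w ∈ S ∪ insert (z j) m
    · rw [if_pos h, if_neg (not_not.2 h)]
    · rw [if_neg h, if_pos h]
  have hfin := hexb (Real.exp (C' * L)) U x hD3 hU hx hcond J lam hlb ?_ ?_
  · rw [Real.log_exp] at hfin
    exact hfin.trans (Real.exp_le_exp.2 (bga_fin C2 C' U x L hC2 (by linarith) hU hx hL1))
  · intro j j' hjj Y hY
    have hzj : z j ≠ z j' := fun h => hjj (hz h)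
    have h1 := hcrx (G j) (G j') (φ j) (φ j') (H j) (H j') (ψ j) (ψ j')
      (S ∪ (insert (z j) m).filter (fun v => nm v ≤ nm (z j)))
      (S ∪ (insert (z j') m).filter (fun v => nm v ≤ nm (z j')))
      (S ∪ insert (z j) (insert (z j') m)) Q (lam j) (lam j') (hM j).card (hM j').card
      (hM j).ft (hM j').ft (hM j).lc (hM j').lc ?_ ?_ ?_ ?_ (hlb j) (hlb j') ?_ Y hY
    · refine h1.trans (mul_le_mul_of_nonneg_right ?_ (Real.rpow_nonneg (by linarith) _))
      rw [hC']
      refine bga_D C0 (nr S) (2 * Z) A S.card m.card _ hC0 hnS hZ6 ?_ L hL _ ?_ ?_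
      · refine (Finset.card_union_le _ _).trans ?_
        have h2 := Finset.card_insert_le (z j) (insert (z j') m)
        have h3 := Finset.card_insert_le (z j') m
        omega
      · exact (zero_le_one.trans (one_le_nr _))
      · exact bga_nr S m (z j) (z j') (2 * Z) (by linarith) (hzz j).2.2 (hzz j').2.2
    · intro l _ hl
      rw [Finset.mem_union, not_or] at hl
      exact mb_ud (hM j) l hl.1 hl.2
    · intro l _ hl
      rw [Finset.mem_union, not_or] at hl
      exact mb_ud (hM j') l hl.1 hl.2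
    · refine mb_cr (hM j) (hM j') (hzz j).1 ?_
      rw [Finset.mem_insert, not_or]
      exact ⟨hzj, (hzz j).2.1⟩
    · intro v hv
      simp only [Finset.mem_union, Finset.mem_filter, Finset.mem_insert] at hv ⊢
      tauto
    · intro l hl _
      simp only [Finset.mem_union, Finset.mem_insert, not_or] at hl
      rw [hlam, hlam, if_neg, if_neg]
      · exact ⟨rfl, rfl⟩
      · simp only [Finset.mem_union, Finset.mem_insert, not_or]
        tauto
      · simp only [Finset.mem_union, Finset.mem_insert, not_or]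
        tauto
  · intro j
    rw [hsum]
    exact hJ j

end H57.GP.Q
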