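import Pool.Agent.H93.GQ.Def
import Pool.Agent.H57.RQ.Em

/-!
# H93 GQ TEL: means over cosets of a normal subgroup and characters of order `p = ℓ ^ (k + 1)` of subgroups

As H57/GP/Tel; in one step `H < H₁` of index `ℓ` the characters of `H₁ / H` of order `ℓ` are used.
-/

set_option autoImplicit false

open scoped NumberField Pointwise Classical
open IsDedekindDomain H63.MA NumberField H36.QA H57.LI H57.LC H67.SX H38.ML H57.SL

noncomputable section

namespace H57.GP.Q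

section

variable {G : Type} [Group G] [Fintype G]

/-- not trivial on the intersection -/
theorem tel_kill {ℓ p : ℕ} (hp : PQ ℓ p) {H D : Subgroup G} {ψ : G → ZMod p} (hL : Lc H ψ) {t : G}
    (ht : t ∈ H) (htD : t ∈ D) (h0 : ψ t ≠ 0) : PD D (th H ψ) = fun _ => 0 := by
  funext y
  unfold PD
  have h1 : ∑ d : D, th H ψ (y * d) = ep p (ψ t) * ∑ d : D, th H ψ (y * d) := by
    conv_lhs => rw [← Equiv.sum_comp (Equiv.mulRight (⟨t, htD⟩ : D)) (fun d : D => th H ψ (y * d))]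
    rw [Finset.mul_sum]
    refine Finset.sum_congr rfl fun d _ => ?_
    show th H ψ (y * ((d : G) * t)) = ep p (ψ t) * th H ψ (y * d)
    rw [← mul_assoc]
    unfold th
    by_cases hy : y * d ∈ H
    · rw [if_pos hy, if_pos (H.mul_mem hy ht), hL _ hy _ ht, ep_addq hp, mul_comm]
    · rw [if_neg hy, if_neg, mul_zero]
      intro h2
      exact hy ((H.mul_mem_cancel_right ht).1 h2)
  have h2 : ep p (ψ t) ≠ 1 := fun h3 => h0 ((ep_eq_oneq hp _).1 h3)
  have h3 : (1 - ep p (ψ t)) * ∑ d : D, th H ψ (y * d) = 0 := by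
    rw [sub_mul, one_mul, ← h1, sub_self]
  rcases mul_eq_zero.1 h3 with h4 | h4
  · exact absurd (sub_eq_zero.1 h4).symm h2
  · rw [h4, mul_zero]

/-- the mean of a character of a subgroup over the cosets of a normal subgroup -/
theorem tel_th {ℓ p : ℕ} (hp : PQ ℓ p) {H D : Subgroup G} (hD : D.Normal) {ψ ψ₁ : G → ZMod p}
    (hL : Lc H ψ) (h0 : ∀ t ∈ H, t ∈ D → ψ t = 0) (h1 : ∀ a ∈ H, ∀ d ∈ D, ψ₁ (a * d) = ψ a) :
    ∃ a : ℂ, ‖a‖ ≤ 1 ∧ PD D (th H ψ) = fun y => a * th (H ⊔ D) ψ₁ y := by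
  refine ⟨(Fintype.card D : ℂ)⁻¹ * ((Finset.univ.filter fun d : D => (d : G) ∈ H).card : ℂ), ?_, ?_⟩
  · rw [norm_mul, norm_inv, Complex.norm_natCast, Complex.norm_natCast]
    have h2 : (0 : ℝ) < Fintype.card D := by
      exact_mod_cast Fintype.card_pos
    rw [inv_mul_le_iff₀ h2, mul_one]
    exact_mod_cast Finset.card_le_univ _
  · funext y
    unfold PD
    rw [mul_assoc]
    congr 1
    by_cases hy : y ∈ H ⊔ D
    · rw [th, if_pos hy]
      obtain ⟨a, ha, d₀, hd₀, rfl⟩ := Subgroup.mem_sup_of_normal_right.1 hy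
      rw [h1 a ha d₀ hd₀]
      rw [← Equiv.sum_comp (Equiv.mulLeft ((⟨d₀, hd₀⟩ : D)⁻¹)) (fun d : D => th H ψ (a * d₀ * d))]
      have h2 : ∀ d : D, th H ψ (a * d₀ * ((Equiv.mulLeft ((⟨d₀, hd₀⟩ : D)⁻¹) d : D) : G)) =
          if (d : G) ∈ H then ep p (ψ a) else 0 := by
        intro d
        have h3 : a * d₀ * ((Equiv.mulLeft ((⟨d₀, hd₀⟩ : D)⁻¹) d : D) : G) = a * d := by
          show a * d₀ * (d₀⁻¹ * (d : G)) = a * d
          group
        rw [h3]
        unfold th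
        by_cases hd : (d : G) ∈ H
        · rw [if_pos hd, if_pos (H.mul_mem ha hd), hL a ha d hd, h0 d hd d.2, add_zero]
        · rw [if_neg hd, if_neg]
          intro h4
          exact hd ((H.mul_mem_cancel_left ha).1 h4)
      rw [Finset.sum_congr rfl fun d _ => h2 d, ← Finset.sum_filter, Finset.sum_const, nsmul_eq_mul]
    · rw [th, if_neg hy, mul_zero]
      refine Finset.sum_eq_zero fun d _ => ?_
      unfold th
      rw [if_neg]
      intro h4
      apply hy
      have h5 : y = (y * d) * (d : G)⁻¹ := by group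
      rw [h5]
      exact (H ⊔ D).mul_mem (Subgroup.mem_sup_left h4)
        (Subgroup.mem_sup_right (D.inv_mem d.2))

/-- the next subgroup and its character of order `ℓ` -/
theorem tel_next {ℓ p : ℕ} (hp : PQ ℓ p) (hG : IsPGroup ℓ G) {H M : Subgroup G} (h : H < M) :
    ∃ (H₁ : Subgroup G) (χ : G → ZMod p), H ≤ H₁ ∧ H₁ ≤ M ∧ Nat.card H₁ = ℓ * Nat.card H ∧
      Lc H₁ χ ∧ (∀ y, (ℓ : ZMod p) * χ y = 0) ∧ ∀ y ∈ H₁, (χ y = 0 ↔ y ∈ H) := by
  obtain ⟨H₁, χ, h1, h2, h3, h4, h5⟩ := H57.GP.tel_next hp.prime hG h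
  obtain ⟨hℓ, k, rfl⟩ := hp
  refine ⟨H₁, fun y => H57.RQ.em ℓ k (χ y), h1, h2, h3, fun a ha b hb => ?_, fun y => ?_, fun y hy => ?_⟩
  · beta_reduce
    rw [h4 a ha b hb, H57.RQ.em_add hℓ]
  · unfold H57.RQ.em
    rw [← Nat.cast_mul, ← mul_assoc, ← pow_succ', Nat.cast_mul, ZMod.natCast_self, zero_mul]
  · rw [← h5 y hy]
    exact ⟨fun h6 => H57.RQ.em_inj hℓ h6, fun h6 => by beta_reduce; rw [h6, H57.RQ.em_zero hℓ]⟩

theorem tel_one {ℓ p : ℕ} (hp : PQ ℓ p) (hG : IsPGroup ℓ G) {D' : Subgroup G} (hD' : D'.Normal) (m : ℕ) :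
    ∀ (H : Subgroup G) (ψ : G → ZMod p), Lc H ψ → (∀ t ∈ H, t ∈ D' → ψ t = 0) →
      Nat.card (H ⊔ D' : Subgroup G) - Nat.card H = m →
      TelS p m 1 (fun H' ψ' => (H ≤ H' ∧ ∀ y ∈ H, ψ' y = ψ y) ∧ ∃ y ∈ H', y ∈ D' ∧ ψ' y ≠ 0)
        (fun y => th H ψ y - PD D' (th H ψ) y) := by
  induction m using Nat.strong_induction_on with
  | _ m ih =>
    intro H ψ hL h0 hm
    by_cases hle : D' ≤ H
    · have h1 : (fun y => th H ψ y - PD D' (th H ψ) y) = fun _ => 0 := by
        funext y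
        have h2 : ∀ d : D', th H ψ (y * d) = th H ψ y := by
          intro d
          unfold th
          by_cases hy : y ∈ H
          · rw [if_pos hy, if_pos (H.mul_mem hy (hle d.2)), hL y hy d (hle d.2), h0 d (hle d.2) d.2,
              add_zero]
          · rw [if_neg hy, if_neg]
            intro h3
            exact hy ((H.mul_mem_cancel_right (hle d.2)).1 h3)
        have h3 : (Fintype.card D' : ℂ) ≠ 0 := by
          exact_mod_cast Fintype.card_ne_zero
        unfold PD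
        rw [Finset.sum_congr rfl fun d _ => h2 d, Finset.sum_const, Finset.card_univ, nsmul_eq_mul,
          inv_mul_cancel_left₀ h3, sub_self]
      rw [h1]
      exact tels_zero
    · have hlt : H < H ⊔ D' := left_lt_sup.2 hle
      obtain ⟨H₁, χ, g1, g2, g3, g4, g6, g5⟩ := tel_next hp hG hlt
      have hl := hp.prime
      obtain ⟨ψ₁, e1, e2⟩ := tel_ext hD' hL h0
      have e3 : Lc H₁ ψ₁ := fun a ha b hb => e1 a (g2 ha) b (g2 hb)
      have e4 : ∀ y ∈ H, ψ₁ y = ψ y := fun y hy => tel_ext_l e2 hy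
      have e5 : ∀ y ∈ D', ψ₁ y = 0 := fun y hy => tel_ext_r hL e2 hy
      have hsup : H₁ ⊔ D' = H ⊔ D' :=
        le_antisymm (sup_le g2 le_sup_right) (sup_le_sup_right g1 D')
      have hNZ : NeZero p := ⟨hp.ne_zero⟩
      have hp0 : (ℓ : ℂ) ≠ 0 := by exact_mod_cast hl.ne_zero
      -- the points of `H₁` outside `H`
      obtain ⟨y₀, hy₀, hy₀'⟩ : ∃ y₀ ∈ H₁, y₀ ∉ H := by
        by_contra hcon
        push Not at hcon
        have h1 : H₁ = H := le_antisymm hcon g1
        rw [h1] at g3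
        have h2 : 0 < Nat.card H := Nat.card_pos
        have h3 := hl.one_lt
        nlinarith
      obtain ⟨a, ha, d, hd, hady⟩ := Subgroup.mem_sup_of_normal_right.1 (g2 hy₀)
      have hd1 : d ∈ H₁ := by
        have h1 : d = a⁻¹ * y₀ := by
          rw [← hady]
          group
        rw [h1]
        exact H₁.mul_mem (H₁.inv_mem (g1 ha)) hy₀
      have hdχ : χ d ≠ 0 := by
        intro h1
        apply hy₀'
        rw [← hady]
        exact H.mul_mem ha ((g5 d hd1).1 h1)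
      have hLj : ∀ j : ℕ, Lc H₁ (fun y => ψ₁ y + (j : ZMod p) * χ y) := by
        intro j a ha b hb
        show ψ₁ (a * b) + (j : ZMod p) * χ (a * b) =
          (ψ₁ a + (j : ZMod p) * χ a) + (ψ₁ b + (j : ZMod p) * χ b)
        rw [e3 a ha b hb, g4 a ha b hb]
        ring
      have hth : th H ψ = fun y => ∑ j ∈ Finset.range ℓ,
          (ℓ : ℂ)⁻¹ * th H₁ (fun y => ψ₁ y + (j : ZMod p) * χ y) y := by
        funext y
        rw [← Finset.mul_sum]
        by_cases hy : y ∈ H₁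
        · have h1 : ∀ j : ℕ, th H₁ (fun y => ψ₁ y + (j : ZMod p) * χ y) y =
              ep p (ψ₁ y) * ep p (j * χ y) := by
            intro j
            unfold th
            rw [if_pos hy, ep_addq hp]
          rw [Finset.sum_congr rfl fun j _ => h1 j, ← Finset.mul_sum]
          by_cases hyH : y ∈ H
          · have h2 : ∀ j ∈ Finset.range ℓ, ep p ((j : ZMod p) * χ y) = 1 := by
              intro j _
              rw [(g5 y hy).2 hyH, mul_zero, ep_zero]
            rw [Finset.sum_congr rfl h2, e4 y hyH, th, if_pos hyH, Finset.sum_const,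
              Finset.card_range, nsmul_eq_mul, mul_one]
            field_simp
          · rw [ep_geo hp (g6 y) (fun h2 => hyH ((g5 y hy).1 h2)), th, if_neg hyH, mul_zero, mul_zero]
        · have h1 : ∀ j : ℕ, th H₁ (fun y => ψ₁ y + (j : ZMod p) * χ y) y = 0 := by
            intro j
            unfold th
            rw [if_neg hy]
          rw [Finset.sum_congr rfl fun j _ => h1 j, Finset.sum_const_zero, mul_zero, th,
            if_neg fun h2 => hy (g1 h2)]
      have hex : ∀ j : ℕ, 0 < j → j < ℓ → ψ₁ d + (j : ZMod p) * χ d ≠ 0 := by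
        intro j hj hjl
        rw [e5 d hd, zero_add]
        exact pq_mul hp (g6 d) hdχ hj hjl
      have hzero : (fun y => ψ₁ y + ((0 : ℕ) : ZMod p) * χ y) = ψ₁ := by
        funext y
        rw [Nat.cast_zero, zero_mul, add_zero]
      have h0r : 0 ∈ Finset.range ℓ := Finset.mem_range.2 hl.pos
      have hPD : PD D' (th H ψ) = fun y => (ℓ : ℂ)⁻¹ * PD D' (th H₁ ψ₁) y := by
        rw [hth, tel_pd_sum]
        funext y
        rw [Finset.sum_eq_single 0]
        · rw [hzero]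
        · intro j hj hj0
          rw [tel_kill hp (hLj j) hd1 hd (hex j (Nat.pos_of_ne_zero hj0) (Finset.mem_range.1 hj)),
            mul_zero]
        · intro h1
          exact absurd h0r h1
      have hdec : (fun y => th H ψ y - PD D' (th H ψ) y) = fun y =>
          (ℓ : ℂ)⁻¹ * (th H₁ ψ₁ y - PD D' (th H₁ ψ₁) y) +
            ∑ j ∈ (Finset.range ℓ).erase 0,
              (ℓ : ℂ)⁻¹ * th H₁ (fun y => ψ₁ y + (j : ZMod p) * χ y) y := by
        funext y
        rw [hPD]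
        conv_lhs => rw [hth]
        show (∑ j ∈ Finset.range ℓ, (ℓ : ℂ)⁻¹ * th H₁ (fun y => ψ₁ y + (j : ZMod p) * χ y) y) -
          (ℓ : ℂ)⁻¹ * PD D' (th H₁ ψ₁) y = _
        rw [← Finset.add_sum_erase _ _ h0r, hzero]
        ring
      have hpinv : ‖(ℓ : ℂ)⁻¹‖ ≤ 1 := by
        rw [norm_inv, Complex.norm_natCast]
        exact inv_le_one_of_one_le₀ (by exact_mod_cast hl.one_le)
      have hcH : 0 < Nat.card H := Nat.card_pos
      have hle1 : Nat.card H₁ ≤ Nat.card (H ⊔ D' : Subgroup G) :=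
        Nat.card_le_card_of_injective _ (Subgroup.inclusion_injective g2)
      have hpm : (ℓ - 1) + Nat.card H ≤ Nat.card H₁ := by
        rw [g3]
        obtain ⟨q, hq⟩ : ∃ q, ℓ = q + 1 := ⟨ℓ - 1, by have := hl.one_lt; omega⟩
        rw [hq]
        have h1 : q * 1 ≤ q * Nat.card H := Nat.mul_le_mul_left q hcH
        have h2 : (q + 1) * Nat.card H = q * Nat.card H + Nat.card H := by ring
        rw [h2]
        omega
      have h1lt := hl.one_lt
      have hI := ih (Nat.card (H₁ ⊔ D' : Subgroup G) - Nat.card H₁) (by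
        rw [hsup]
        omega) H₁ ψ₁ e3 (fun t _ ht => e5 t ht) rfl
      rw [hdec]
      have hA := tels_smul ((ℓ : ℂ)⁻¹) hI
      have hA' := tels_mono (P' := fun H' ψ' => (H ≤ H' ∧ ∀ y ∈ H, ψ' y = ψ y) ∧
        ∃ y ∈ H', y ∈ D' ∧ ψ' y ≠ 0) (B' := 1) le_rfl (by rwa [mul_one]) (fun H' ψ' h =>
          ⟨⟨g1.trans h.1.1, fun y hy => (h.1.2 y (g1 hy)).trans (e4 y hy)⟩, h.2⟩) hA
      have hB := tels_sum (p := p) (M := 1) (B := 1) (P := fun H' ψ' => (H ≤ H' ∧ ∀ y ∈ H, ψ' y = ψ y) ∧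
        ∃ y ∈ H', y ∈ D' ∧ ψ' y ≠ 0) ((Finset.range ℓ).erase 0)
        (fun j y => (ℓ : ℂ)⁻¹ * th H₁ (fun y => ψ₁ y + (j : ZMod p) * χ y) y) (fun j hj => by
          refine tels_one hpinv (hLj j) ⟨⟨g1, fun y hy => ?_⟩, d, hd1, hd,
            hex j (Nat.pos_of_ne_zero (Finset.ne_of_mem_erase hj))
              (Finset.mem_range.1 (Finset.mem_of_mem_erase hj))⟩
          show ψ₁ y + (j : ZMod p) * χ y = ψ y
          rw [e4 y hy, (g5 y (g1 hy)).2 hy, mul_zero, add_zero])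
      rw [Finset.sum_const, Finset.card_erase_of_mem h0r, Finset.card_range, smul_eq_mul,
        mul_one] at hB
      refine tels_mono ?_ le_rfl (fun _ _ h => h) (tels_add hA' hB)
      rw [hsup]
      omega

theorem tel_main {ℓ p : ℕ} (hp : PQ ℓ p) (hG : IsPGroup ℓ G) {D D' : Subgroup G} (hD : D.Normal)
    (hD' : D'.Normal) {b : ℕ} (hb : Fintype.card G ≤ b) {H : Subgroup G} {ψ : G → ZMod p}
    (hL : Lc H ψ) : TelS p (b + 1) 1 (fun H' ψ' => (D ≤ H' ∧ ∀ y ∈ D, ψ' y = 0) ∧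
      ∃ y ∈ H', y ∈ D' ∧ ψ' y ≠ 0)
      (fun y => PD D (th H ψ) y - PD D' (PD D (th H ψ)) y) := by
  by_cases h0 : ∀ t ∈ H, t ∈ D → ψ t = 0
  · obtain ⟨ψ₁, e1, e2⟩ := tel_ext hD hL h0
    have e5 : ∀ y ∈ D, ψ₁ y = 0 := fun y hy => tel_ext_r hL e2 hy
    obtain ⟨a, ha, hPD⟩ := tel_th hp hD hL h0 e2
    rw [hPD, tel_pd_mul]
    by_cases h1 : ∀ t ∈ H ⊔ D, t ∈ D' → ψ₁ t = 0
    · have h2 := tel_one hp hG hD' _ (H ⊔ D) ψ₁ e1 h1 rfl
      have h3 := tels_smul a h2
      have h4 : (fun y => a * th (H ⊔ D) ψ₁ y - (fun y => a * PD D' (th (H ⊔ D) ψ₁) y) y) =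
          fun y => a * (th (H ⊔ D) ψ₁ y - PD D' (th (H ⊔ D) ψ₁) y) := by
        funext y
        ring
      rw [h4]
      refine tels_mono ?_ ?_ (fun H' ψ' h => ?_) h3
      · have h5 : Nat.card (H ⊔ D ⊔ D' : Subgroup G) ≤ Nat.card G :=
          Subgroup.card_le_card_group _
        rw [Nat.card_eq_fintype_card (α := G)] at h5
        omega
      · rwa [mul_one]
      · exact ⟨⟨le_sup_right.trans h.1.1, fun y hy =>
          (h.1.2 y (Subgroup.mem_sup_right hy)).trans (e5 y hy)⟩, h.2⟩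
    · push Not at h1
      obtain ⟨t, ht, htD, ht0⟩ := h1
      rw [tel_kill hp e1 ht htD ht0]
      have h4 : (fun y => a * th (H ⊔ D) ψ₁ y - (fun y : G => a * (fun _ => (0 : ℂ)) y) y) =
          fun y => a * th (H ⊔ D) ψ₁ y := by
        funext y
        simp
      rw [h4]
      refine tels_mono (M := 1) (by omega) le_rfl (fun _ _ h => h) ?_
      exact tels_one ha e1 ⟨⟨le_sup_right, e5⟩, t, ht, htD, ht0⟩
  · push Not at h0
    obtain ⟨t, ht, htD, ht0⟩ := h0
    rw [tel_kill hp hL ht htD ht0, tel_pd_zero]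
    simp only [sub_self]
    exact tels_zero

theorem tel {ℓ p : ℕ} (hp : PQ ℓ p) (hG : IsPGroup ℓ G) (D D' : Subgroup G) (hD : D.Normal)
    (hD' : D'.Normal) (hDD : D ≤ D') {N b : ℕ} (hb : Fintype.card G ≤ b) {f : G → ℂ}
    (hf : Raw p N f) : Cb p (N * (p * b + 1)) D D' (fun y => PD D f y - PD D' f y) := by
  obtain ⟨c, H, ψ, h1, h2, h5⟩ := hf
  have hp1 : 1 ≤ p := hp.one_le
  have hDf : PD D f = fun y => ∑ j, c j * PD D (th (H j) (ψ j)) y := by
    have e : f = fun y => ∑ j, c j * th (H j) (ψ j) y := funext h5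
    rw [e, tel_pd_sum]
  have hDf' : PD D' f = fun y => ∑ j, c j * PD D' (PD D (th (H j) (ψ j))) y := by
    rw [← pd_comp D D' hDD, hDf, tel_pd_sum]
  have key : ∀ j ∈ (Finset.univ : Finset (Fin N)), TelS p (b + 1) N (fun H' ψ' => (D ≤ H' ∧ ∀ y ∈ D, ψ' y = 0) ∧
      ∃ y ∈ H', y ∈ D' ∧ ψ' y ≠ 0)
      (fun y => c j * (PD D (th (H j) (ψ j)) y - PD D' (PD D (th (H j) (ψ j))) y)) := by
    intro j _
    have h6 := tel_main hp hG hD hD' hb (h2 j)
    have h7 := tels_smul (c j) h6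
    refine tels_mono le_rfl ?_ (fun _ _ h => h) h7
    rw [mul_one]
    exact h1 j
  have h8 := tels_sum Finset.univ _ key
  rw [Finset.sum_const, Finset.card_univ, Fintype.card_fin, smul_eq_mul] at h8
  have h9 : (fun y => PD D f y - PD D' f y) = fun y => ∑ j, c j *
      (PD D (th (H j) (ψ j)) y - PD D' (PD D (th (H j) (ψ j))) y) := by
    funext y
    rw [hDf, hDf', ← Finset.sum_sub_distrib]
    exact Finset.sum_congr rfl fun j _ => by ring
  rw [h9]
  refine tels_cb ?_ ?_ h8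
  · refine Nat.mul_le_mul_left N ?_
    have : 1 * b ≤ p * b := Nat.mul_le_mul_right b hp1
    omega
  · have h10 : N ≤ N * (p * b + 1) := Nat.le_mul_of_pos_right N (Nat.succ_pos _)
    exact_mod_cast h10

end

end H57.GP.Q
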